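import Pool.Agent.Lib.MP_7b6720_al.HQ.Defs

set_option autoImplicit false

/-!
# COM: the commutator of two permutations whose supports meet in one point
-/

namespace Pool.Agent.SymDiam.HQ

open Equiv Finset Pool.Agent.SymDiam.EX Pool.Agent.SymDiam.HS

theorem com_proof : ComStatement := by
  intro m σ τ p h
  have key : ∀ x, σ x ≠ x → τ x ≠ x → x = p := by
    intro x h1 h2
    have h3 : x ∈ σ.support ∩ τ.support :=
      mem_inter.2 ⟨Perm.mem_support.2 h1, Perm.mem_support.2 h2⟩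
    rw [h] at h3
    exact mem_singleton.1 h3
  have hp : p ∈ σ.support ∩ τ.support := by
    rw [h]
    exact mem_singleton_self p
  have hσ : σ p ≠ p := Perm.mem_support.1 (mem_inter.1 hp).1
  have hτ : τ p ≠ p := Perm.mem_support.1 (mem_inter.1 hp).2
  have vσ : ∀ x, σ⁻¹ (σ x) = x := fun x => σ.symm_apply_apply x
  have vτ : ∀ x, τ⁻¹ (τ x) = x := fun x => τ.symm_apply_apply x
  -- moved points stay moved
  have mσ : ∀ x, σ x ≠ x → σ (σ x) ≠ σ x := fun x h1 h2 => h1 (σ.injective h2)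
  have mτ : ∀ x, τ x ≠ x → τ (τ x) ≠ τ x := fun x h1 h2 => h1 (τ.injective h2)
  have iσ : ∀ x, σ x = x → σ⁻¹ x = x := fun x h1 => by rw [Perm.inv_eq_iff_eq, h1]
  have iτ : ∀ x, τ x = x → τ⁻¹ x = x := fun x h1 => by rw [Perm.inv_eq_iff_eq, h1]
  have jσ : σ (σ⁻¹ p) = p := σ.apply_symm_apply p
  have jτ : τ (τ⁻¹ p) = p := τ.apply_symm_apply p
  have e1 : p ≠ σ⁻¹ p := fun h1 => hσ (by rw [← h1] at jσ; exact jσ)
  have e2 : p ≠ τ⁻¹ p := fun h1 => hτ (by rw [← h1] at jτ; exact jτ)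
  have e3 : σ⁻¹ p ≠ τ⁻¹ p := by
    intro h1
    refine e1 (key (σ⁻¹ p) ?_ ?_).symm
    · rw [jσ]
      exact e1
    · rw [h1, jτ]
      exact e2
  refine ⟨p, σ⁻¹ p, τ⁻¹ p, e1, e2, e3, ?_, ?_⟩
  · rw [Perm.mul_apply, Perm.mul_apply, Perm.mul_apply]
    have h1 : σ (τ p) = τ p := by
      by_contra h2
      exact hτ (key (τ p) h2 (mτ p hτ))
    rw [h1, vτ]
  · intro a ha1 ha2 ha3
    rw [Perm.mul_apply, Perm.mul_apply, Perm.mul_apply]
    by_cases hta : τ a = a
    · rw [hta]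
      by_cases hsa : σ a = a
      · rw [hsa, iτ a hta, iσ a hsa]
      · have h1 : τ (σ a) = σ a := by
          by_contra h2
          have h3 := key (σ a) (mσ a hsa) h2
          exact ha2 (by rw [← h3, vσ])
        rw [iτ _ h1, vσ]
    · have hsa : σ a = a := by
        by_contra h2
        exact ha1 (key a h2 hta)
      have h1 : σ (τ a) = τ a := by
        by_contra h2
        have h3 := key (τ a) h2 (mτ a hta)
        exact ha3 (by rw [← h3, vτ])
      rw [h1, vτ, iσ a hsa]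

end Pool.Agent.SymDiam.HQ
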