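import Pool.Agent.Lib.MP_7b6720_al.HQ.Defs
import Pool.Agent.Lib.MP_7b6720_al.LB.EX.Main

set_option autoImplicit false

/-!
# EN3: the end
-/

namespace Pool.Agent.SymDiam.HQ

open Equiv Finset Pool.Agent.SymDiam.EX Pool.Agent.SymDiam.HS

open Classical in
/-- EN3 -/
theorem en3_proof (hG : GodStatement) (hP : PlcStatement) : En3Statement := by
  intro n m ρ A hlog hρ hn hm hA hNT g hg
  have hn1 : n ≠ 0 := by
    rintro rfl
    simp at hlog
  have hm1 : 1 ≤ m := by omega
  have hpow : 2 ^ Nat.log 2 n ≤ n := Nat.pow_log_le_self 2 hn1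
  have hn2 : 100 ≤ n := by
    refine le_trans ?_ hpow
    calc 100 ≤ 2 ^ 7 := by norm_num
      _ ≤ 2 ^ Nat.log 2 n := Nat.pow_le_pow_right (by omega) (by omega)
  have h1 := hG n m ρ A hm1 (by omega) hNT
  set Bd := univ.filter fun e : Fin m ↪ Fin n => ¬ Good A ρ e with hBd
  set G := univ.filter fun e : Fin m ↪ Fin n => Good A ρ e with hGd
  have h2 : G.card + Bd.card = n.descFactorial m := by
    rw [hGd, hBd, card_filter_add_card_filter_not, card_univ, Fintype.card_embedding_eq,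
      Fintype.card_fin, Fintype.card_fin]
  have h3 : 2 ^ (200 * n + 1) ≤ n.descFactorial m := by
    have h4 : 2 ^ (Nat.log 2 n - 1) ≤ n + 1 - m := by
      have h5 : 2 ^ Nat.log 2 n = 2 * 2 ^ (Nat.log 2 n - 1) := by
        have : Nat.log 2 n = (Nat.log 2 n - 1) + 1 := by omega
        conv_lhs => rw [this]
        rw [pow_succ]; ring
      omega
    calc 2 ^ (200 * n + 1) ≤ 2 ^ ((Nat.log 2 n - 1) * m) := by
          refine Nat.pow_le_pow_right (by omega) ?_
          calc 200 * n + 1 ≤ 9999 * m := by omega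
            _ ≤ (Nat.log 2 n - 1) * m := Nat.mul_le_mul_right _ (by omega)
      _ = (2 ^ (Nat.log 2 n - 1)) ^ m := by rw [pow_mul]
      _ ≤ (n + 1 - m) ^ m := Nat.pow_le_pow_left h4 _
      _ ≤ n.descFactorial m := Nat.pow_sub_le_descFactorial n m
  have h6 : 2 ^ (200 * n) ≤ G.card := by
    rw [pow_succ] at h3
    omega
  have h7 : G.Nonempty := by
    rw [← card_pos]
    exact lt_of_lt_of_le (by positivity) h6
  obtain ⟨e, he⟩ := h7
  have he' : Good A ρ e := (mem_filter.1 he).2
  have h8 : ∀ e' : Fin m ↪ Fin n, Good A ρ e' → ∃ g, InBall A (2 * m * ρ) g ∧ Maps e e' g :=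
    fun e' h => hP n m ρ A e e' he' h
  choose! f hf1 hf2 using h8
  have h9 : (G.image f).card = G.card := by
    refine card_image_of_injOn ?_
    intro a ha b hb hab
    have ha' := hf2 a (mem_filter.1 (mem_coe.1 ha)).2
    have hb' := hf2 b (mem_filter.1 (mem_coe.1 hb)).2
    ext i
    rw [← ha' i, ← hb' i, hab]
  have h10 : 1 ≤ 2 * m * ρ := Nat.mul_pos (by omega) hρ
  refine expo hA h10 (G.image f) ?_ (by rw [h9]; exact h6) g hg
  intro x hx
  obtain ⟨e', he', rfl⟩ := mem_image.1 hx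
  exact hf1 e' (mem_filter.1 he').2

end Pool.Agent.SymDiam.HQ
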