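import Pool.Agent.Lib.MP_7b6720_al.HQ.Defs
import Pool.Agent.Lib.MP_7b6720_al.HS.Fin

set_option autoImplicit false

/-!
# Row FN3: the main theorem from IT3, EN3, and its form in real numbers
-/

namespace Pool.Agent.SymDiam.HQ

open Equiv Finset Pool.Agent.SymDiam.EX Pool.Agent.SymDiam.HS

theorem fn3_proof (hI : It3Statement) (hE : En3Statement) : Main3Statement := by
  obtain ⟨K, n0, hK⟩ := hI
  refine ⟨K + 27, max n0 (2 ^ 10000), fun n hn A hA g hg => ?_⟩
  have hn0 : n0 ≤ n := le_trans (le_max_left _ _) hn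
  have hn1 : 2 ^ 10000 ≤ n := le_trans (le_max_right _ _) hn
  have hlam : 10000 ≤ Nat.log 2 n := Nat.le_log_of_pow_le Nat.one_lt_two hn1
  clear hn hn1
  obtain ⟨m, ρ, h1, h2, h3, h4, h5⟩ := hK n hn0 A hA
  refine (hE n m ρ A hlam h1 h3 h4 hA h5 g hg).mono ?_
  have hn2 : 1 ≤ n := by
    rcases Nat.eq_zero_or_pos n with h | h
    · rw [h] at hlam
      simp at hlam
    · exact h
  calc 2 * m * ρ * n ^ 26 ≤ n * n ^ (K * Nat.log 2 n) * n ^ 26 :=
        Nat.mul_le_mul_right _ (Nat.mul_le_mul (by omega) h2)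
    _ = n ^ (K * Nat.log 2 n + 27) := by
        rw [show K * Nat.log 2 n + 27 = 1 + K * Nat.log 2 n + 26 by ring, pow_add, pow_add, pow_one]
    _ ≤ n ^ ((K + 27) * Nat.log 2 n) := by
        refine Nat.pow_le_pow_right hn2 ?_
        have : (K + 27) * Nat.log 2 n = K * Nat.log 2 n + 27 * Nat.log 2 n := by ring
        omega

/-- the main theorem, in real numbers, for all `n` -/
theorem main_real3 (h : Main3Statement) : ∃ C : ℝ, ∀ (n : ℕ) (A : Set (Perm (Fin n))),
    alternatingGroup (Fin n) ≤ Subgroup.closure A → ∀ g ∈ Subgroup.closure A,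
      ∃ r : ℕ, (r : ℝ) ≤ Real.exp (C * Real.log n ^ 2) ∧ InBall A r g := by
  obtain ⟨K, n0, hK⟩ := h
  set C2 : ℝ := ∑ n ∈ range (max n0 2), |Real.log (n.factorial : ℝ) / Real.log n ^ 2| with hC2
  have hC20 : 0 ≤ C2 := sum_nonneg fun _ _ => abs_nonneg _
  refine ⟨K * 2 + C2, fun n A hA g hg => ?_⟩
  rcases Nat.lt_or_ge n 2 with hn2 | hn2
  · refine ⟨n.factorial, ?_, H98.triv n A g hg⟩
    have h1 : n.factorial = 1 := by
      interval_cases n <;> rfl
    rw [h1]
    have h2 : (0 : ℝ) ≤ (K * 2 + C2) * Real.log n ^ 2 := by positivity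
    have h3 := Real.add_one_le_exp ((K * 2 + C2) * Real.log (n : ℝ) ^ 2)
    push_cast
    linarith
  have hL : 0 < Real.log n := Real.log_pos (by exact_mod_cast (by omega : 1 < n))
  have hn0 : (0 : ℝ) < n := by exact_mod_cast (by omega : 0 < n)
  by_cases hcase : max n0 2 ≤ n
  · refine ⟨_, ?_, hK n (le_trans (le_max_left _ _) hcase) A hA g hg⟩
    have h1 : (Nat.log 2 n : ℝ) ≤ 2 * Real.log n := by
      have h2 : (2 : ℝ) ^ (Nat.log 2 n) ≤ n := by
        exact_mod_cast Nat.pow_log_le_self 2 (by omega)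
      have h3 : (Nat.log 2 n : ℝ) * Real.log 2 ≤ Real.log n := by
        rw [← Real.log_pow]
        exact Real.log_le_log (by positivity) h2
      have h4 := Real.log_two_gt_d9
      nlinarith [Nat.cast_nonneg (α := ℝ) (Nat.log 2 n)]
    have h2 : ((n ^ (K * Nat.log 2 n) : ℕ) : ℝ) =
        Real.exp (((K * Nat.log 2 n : ℕ) : ℝ) * Real.log n) := by
      rw [Real.exp_nat_mul, Real.exp_log hn0]
      push_cast
      rfl
    rw [h2, Real.exp_le_exp]
    push_cast
    have hKr : (0 : ℝ) ≤ K := Nat.cast_nonneg _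
    calc (K : ℝ) * (Nat.log 2 n : ℝ) * Real.log n ≤ (K : ℝ) * (2 * Real.log n) * Real.log n :=
          mul_le_mul_of_nonneg_right (mul_le_mul_of_nonneg_left h1 hKr) hL.le
      _ = (K * 2) * Real.log n ^ 2 := by ring
      _ ≤ (K * 2 + C2) * Real.log n ^ 2 :=
          mul_le_mul_of_nonneg_right (by linarith) (by positivity)
  · push Not at hcase
    refine ⟨n.factorial, ?_, H98.triv n A g hg⟩
    have hf : (0 : ℝ) < (n.factorial : ℝ) := by exact_mod_cast Nat.factorial_pos n
    rw [← Real.log_le_iff_le_exp hf]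
    have h1 : |Real.log (n.factorial : ℝ) / Real.log n ^ 2| ≤ C2 := by
      rw [hC2]
      exact single_le_sum (f := fun n : ℕ => |Real.log (n.factorial : ℝ) / Real.log n ^ 2|)
        (fun _ _ => abs_nonneg _) (mem_range.2 hcase)
    have hKr : (0 : ℝ) ≤ K := Nat.cast_nonneg _
    have h2 : Real.log (n.factorial : ℝ) / Real.log n ^ 2 ≤ K * 2 + C2 :=
      (le_abs_self _).trans (h1.trans (by linarith))
    rwa [div_le_iff₀ (by positivity)] at h2

end Pool.Agent.SymDiam.HQ
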