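import Pool.Agent.Lib.MP_7b6720_al.HQ.Defs

set_option autoImplicit false

/-!
# GOD: counting the tuples that are not good
-/

namespace Pool.Agent.SymDiam.HQ

open Equiv Finset Pool.Agent.SymDiam.EX Pool.Agent.SymDiam.HS

/-- a permutation that maps `T` to `T'` and `q` to `q'` -/
theorem god_perm {n : ℕ} {T T' : Finset (Fin n)} {q q' : Fin n} (h : T.card = T'.card)
    (hq : q ∉ T) (hq' : q' ∉ T') : ∃ g : Perm (Fin n), T.map g.toEmbedding = T' ∧ g q = q' := by
  classical
  let e : {x // x ∈ T} ≃ {x // x ∈ T'} := Finset.equivOfCardEq h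
  let g1 : Perm (Fin n) := e.extendSubtype
  have h1 : ∀ x ∈ T, g1 x ∈ T' := fun x hx => e.extendSubtype_mem x hx
  refine ⟨swap (g1 q) q' * g1, ?_, ?_⟩
  · refine eq_of_subset_of_card_le ?_ (by rw [card_map, h])
    intro y hy
    rw [mem_map] at hy
    obtain ⟨x, hx, rfl⟩ := hy
    have h2 : g1 x ≠ g1 q := fun h3 => hq (g1.injective h3 ▸ hx)
    have h3 : g1 x ≠ q' := fun h4 => hq' (h4 ▸ h1 x hx)
    have h4 : (swap (g1 q) q' * g1).toEmbedding x = g1 x := by
      change (swap (g1 q) q' * g1) x = g1 x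
      rw [Perm.mul_apply, swap_apply_of_ne_of_ne h2 h3]
    rw [h4]
    exact h1 x hx
  · rw [Perm.mul_apply, swap_apply_left]

theorem pre_trans {n m : ℕ} (e : Fin m ↪ Fin n) (g : Perm (Fin n)) (i : ℕ) :
    pre (e.trans g.toEmbedding) i = (pre e i).map g.toEmbedding := by
  unfold pre
  rw [map_map]

theorem pre_card {n m : ℕ} (e : Fin m ↪ Fin n) (i : Fin m) : (pre e i).card = i := by
  unfold pre
  rw [card_map]
  have h : (univ.filter fun j : Fin m => j.val < (i : ℕ)) = Iio i := by
    ext j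
    rw [mem_filter, mem_Iio]
    exact ⟨fun h => h.2, fun h => ⟨mem_univ _, h⟩⟩
  rw [h, Fin.card_Iio]

theorem pre_notMem {n m : ℕ} (e : Fin m ↪ Fin n) (i : Fin m) : e i ∉ pre e i := by
  unfold pre
  rw [mem_map]
  rintro ⟨j, hj, he⟩
  rw [mem_filter] at hj
  rw [e.injective he] at hj
  omega

/-- the number of pairs -/
theorem god_num (n i : ℕ) (h : i + 2 ≤ n) :
    n * (n - 1) * (n - 2).choose i = n.choose i * (n - i) * (n - i - 1) := by
  obtain ⟨N, rfl⟩ : ∃ N, n = N + 2 := ⟨n - 2, by omega⟩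
  have h1 := Nat.choose_mul_succ_eq N i
  have h2 := Nat.choose_mul_succ_eq (N + 1) i
  have e1 : N + 2 - 1 = N + 1 := by omega
  have e2 : N + 2 - 2 = N := by omega
  have e3 : N + 2 - i - 1 = N + 1 - i := by omega
  have e4 : N + 2 - i = N + 1 + 1 - i := by omega
  rw [e1, e2, e3, e4]
  calc (N + 2) * (N + 1) * N.choose i = (N.choose i * (N + 1)) * (N + 1 + 1) := by ring
    _ = ((N + 1).choose i * (N + 1 + 1)) * (N + 1 - i) := by rw [h1]; ring
    _ = _ := by rw [h2]

open Classical in
/-- the tuples that are bad at the place `i` -/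
theorem god_place {n m ρ : ℕ} {A : Set (Perm (Fin n))} (hm : m + 2 ≤ n) (i : Fin m)
    (hcn : ∀ q q' : Fin n, q ≠ q' → 8 * m * cn A ρ i ∅ q q' ≤ (n - 2).choose i) :
    4 * m * (univ.filter fun e : Fin m ↪ Fin n => ¬ 2 * (univ.filter fun x =>
      x ∉ pre e i ∧ ¬ Rel A ρ (pre e i) (e i) x).card < n - i).card ≤ n.descFactorial m := by
  have hi : (i : ℕ) < m := i.isLt
  let F : Finset (Fin n) × Fin n → ℕ := fun p =>
    (univ.filter fun x => x ∉ p.1 ∧ ¬ Rel A ρ p.1 p.2 x).card
  let PQ : Finset (Finset (Fin n) × Fin n) :=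
    (powersetCard (i : ℕ) (univ : Finset (Fin n)) ×ˢ (univ : Finset (Fin n))).filter
      fun p => p.2 ∉ p.1
  let π : (Fin m ↪ Fin n) → Finset (Fin n) × Fin n := fun e => (pre e i, e i)
  let c : Finset (Fin n) × Fin n → ℕ := fun p =>
    (univ.filter fun e : Fin m ↪ Fin n => π e = p).card
  have hπ : ∀ e ∈ (univ : Finset (Fin m ↪ Fin n)), π e ∈ PQ := by
    intro e _
    rw [mem_filter, mem_product, mem_powersetCard]
    exact ⟨⟨⟨subset_univ _, pre_card e i⟩, mem_univ _⟩, pre_notMem e i⟩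
  -- all fibres have the same size
  have hle : ∀ p ∈ PQ, ∀ p' ∈ PQ, c p ≤ c p' := by
    intro p hp p' hp'
    rw [mem_filter, mem_product, mem_powersetCard] at hp hp'
    obtain ⟨g, hg1, hg2⟩ := god_perm (hp.1.1.2.trans hp'.1.1.2.symm) hp.2 hp'.2
    refine card_le_card_of_injOn (fun e => e.trans g.toEmbedding) ?_ ?_
    · intro e he
      rw [mem_coe, mem_filter] at he ⊢
      refine ⟨mem_univ _, ?_⟩
      change (pre (e.trans g.toEmbedding) i, (e.trans g.toEmbedding) i) = p'
      rw [pre_trans]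
      have h1 : pre e i = p.1 := congrArg Prod.fst he.2
      have h2 : e i = p.2 := congrArg Prod.snd he.2
      have h3 : (e.trans g.toEmbedding) i = g (e i) := rfl
      rw [h1, h3, h2, hg1, hg2]
    · intro e _ e' _ h
      ext j
      have h1 := congrArg (fun f : Fin m ↪ Fin n => f j) h
      have h2 : g (e j) = g (e' j) := h1
      rw [g.injective h2]
  have hsum : ∑ p ∈ PQ, c p = n.descFactorial m := by
    rw [← card_eq_sum_card_fiberwise hπ, card_univ, Fintype.card_embedding_eq, Fintype.card_fin,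
      Fintype.card_fin]
  have hc : ∀ p ∈ PQ, c p * PQ.card = n.descFactorial m := by
    intro p hp
    rw [← hsum, sum_congr rfl fun p' hp' => le_antisymm (hle p' hp' p hp) (hle p hp p' hp'),
      sum_const, smul_eq_mul, mul_comm]
  have hPQ : PQ.card = n.choose i * (n - i) := by
    have h1 : PQ.card = ∑ T ∈ powersetCard (i : ℕ) (univ : Finset (Fin n)),
        ((univ : Finset (Fin n)).filter fun q => q ∉ T).card := by
      rw [card_filter, sum_product]
      exact sum_congr rfl fun T _ => by rw [card_filter]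
    rw [h1, sum_congr rfl fun T hT => by
      rw [filter_not, filter_mem_eq_inter, univ_inter, ← compl_eq_univ_sdiff, card_compl,
        Fintype.card_fin, (mem_powersetCard.1 hT).2], sum_const, card_powersetCard, card_univ,
      Fintype.card_fin, smul_eq_mul]
  -- the number of triples
  have hF : 8 * m * ∑ p ∈ PQ, F p ≤ n * (n - 1) * (n - 2).choose i := by
    have h1 : ∑ p ∈ PQ, F p = ∑ q : Fin n, ∑ x : Fin n, cn A ρ i ∅ q x := by
      have h2 : ∑ p ∈ PQ, F p = ∑ T ∈ powersetCard (i : ℕ) (univ : Finset (Fin n)),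
          ∑ q : Fin n, ∑ x : Fin n, if q ∉ T ∧ x ∉ T ∧ ¬ Rel A ρ T q x then 1 else 0 := by
        rw [sum_filter, sum_product]
        refine sum_congr rfl fun T _ => sum_congr rfl fun q _ => ?_
        by_cases hq : q ∉ T
        · rw [if_pos hq]
          change (univ.filter fun x => x ∉ T ∧ ¬ Rel A ρ T q x).card = _
          rw [card_filter]
          refine sum_congr rfl fun x _ => ?_
          by_cases hx : x ∉ T ∧ ¬ Rel A ρ T q x
          · rw [if_pos hx, if_pos ⟨hq, hx⟩]
          · rw [if_neg hx, if_neg fun h => hx h.2]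
        · rw [if_neg hq]
          rw [sum_congr rfl fun x _ => if_neg fun h => hq h.1]
          simp
      rw [h2, sum_comm]
      refine sum_congr rfl fun q _ => ?_
      rw [sum_comm]
      refine sum_congr rfl fun x _ => ?_
      unfold cn
      rw [card_filter]
      refine sum_congr rfl fun T _ => ?_
      by_cases hx : q ∉ T ∧ x ∉ T ∧ ¬ Rel A ρ T q x
      · rw [if_pos hx, if_pos ⟨empty_subset _, hx⟩]
      · rw [if_neg hx, if_neg fun h => hx h.2]
    have h3 : ∀ q : Fin n, 8 * m * ∑ x : Fin n, cn A ρ i ∅ q x ≤ (n - 1) * (n - 2).choose i := by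
      intro q
      have h4 : cn A ρ i ∅ q q = 0 := by
        unfold cn
        rw [card_eq_zero, filter_eq_empty_iff]
        rintro T _ ⟨_, _, _, h⟩
        exact h (Rel.refl A ρ T q)
      rw [← add_sum_erase univ _ (mem_univ q), h4, Nat.zero_add, mul_sum]
      calc ∑ x ∈ univ.erase q, 8 * m * cn A ρ i ∅ q x
          ≤ ∑ _x ∈ univ.erase q, (n - 2).choose i :=
            sum_le_sum fun x hx => hcn q x (ne_of_mem_erase hx).symm
        _ = (n - 1) * (n - 2).choose i := by
            rw [sum_const, card_erase_of_mem (mem_univ q), card_univ, Fintype.card_fin,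
              smul_eq_mul]
    rw [h1, mul_sum]
    calc ∑ q : Fin n, 8 * m * ∑ x : Fin n, cn A ρ i ∅ q x
        ≤ ∑ _q : Fin n, (n - 1) * (n - 2).choose i := sum_le_sum fun q _ => h3 q
      _ = n * (n - 1) * (n - 2).choose i := by
          rw [sum_const, card_univ, Fintype.card_fin, smul_eq_mul, mul_assoc]
  rw [god_num n i (by omega), ← hPQ] at hF
  -- the sum over the tuples
  have hS : (8 * m * ∑ e : Fin m ↪ Fin n, F (π e)) * PQ.card ≤
      n.descFactorial m * (PQ.card * (n - i - 1)) := by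
    have h1 : ∑ e : Fin m ↪ Fin n, F (π e) = ∑ p ∈ PQ, c p * F p := by
      rw [← sum_fiberwise_of_maps_to hπ]
      refine sum_congr rfl fun p _ => ?_
      rw [sum_congr rfl fun e he => by rw [(mem_filter.1 he).2], sum_const, smul_eq_mul]
    rw [h1]
    calc (8 * m * ∑ p ∈ PQ, c p * F p) * PQ.card = 8 * m * ∑ p ∈ PQ, (c p * PQ.card) * F p := by
          rw [mul_assoc, sum_mul]
          congr 1
          exact sum_congr rfl fun p _ => by ring
      _ = 8 * m * ∑ p ∈ PQ, n.descFactorial m * F p := by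
          congr 1
          exact sum_congr rfl fun p hp => by rw [hc p hp]
      _ = n.descFactorial m * (8 * m * ∑ p ∈ PQ, F p) := by rw [← mul_sum]; ring
      _ ≤ n.descFactorial m * (PQ.card * (n - i - 1)) := Nat.mul_le_mul_left _ hF
  have hPQ0 : 0 < PQ.card := by
    rw [hPQ]
    exact Nat.mul_pos (Nat.choose_pos (by omega)) (by omega)
  have hS2 : 8 * m * ∑ e : Fin m ↪ Fin n, F (π e) ≤ n.descFactorial m * (n - i) := by
    refine Nat.le_of_mul_le_mul_right ?_ hPQ0
    refine hS.trans ?_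
    calc n.descFactorial m * (PQ.card * (n - i - 1))
        ≤ n.descFactorial m * (PQ.card * (n - i)) :=
          Nat.mul_le_mul_left _ (Nat.mul_le_mul_left _ (by omega))
      _ = n.descFactorial m * (n - i) * PQ.card := by ring
  -- Markov
  have hM : (univ.filter fun e : Fin m ↪ Fin n => ¬ 2 * F (π e) < n - i).card * (n - i) ≤
      2 * ∑ e : Fin m ↪ Fin n, F (π e) := by
    rw [mul_sum, card_eq_sum_ones, sum_mul]
    calc ∑ e ∈ univ.filter (fun e : Fin m ↪ Fin n => ¬ 2 * F (π e) < n - i), 1 * (n - i)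
        ≤ ∑ e ∈ univ.filter (fun e : Fin m ↪ Fin n => ¬ 2 * F (π e) < n - i), 2 * F (π e) :=
          sum_le_sum fun e he => by
            have := (mem_filter.1 he).2
            omega
      _ ≤ ∑ e : Fin m ↪ Fin n, 2 * F (π e) := sum_le_sum_of_subset (filter_subset _ _)
  refine Nat.le_of_mul_le_mul_right ?_ (show 0 < n - i by omega)
  calc 4 * m * (univ.filter fun e : Fin m ↪ Fin n => ¬ 2 * F (π e) < n - i).card * (n - i)
      = 4 * m * ((univ.filter fun e : Fin m ↪ Fin n => ¬ 2 * F (π e) < n - i).card * (n - i)) := by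
        ring
    _ ≤ 4 * m * (2 * ∑ e : Fin m ↪ Fin n, F (π e)) := Nat.mul_le_mul_left _ hM
    _ = 8 * m * ∑ e : Fin m ↪ Fin n, F (π e) := by ring
    _ ≤ _ := hS2

theorem god_proof (hU : UpcStatement) : GodStatement := by
  classical
  intro n m ρ A hm1 hm hNT
  have hcn : ∀ i : Fin m, ∀ q q' : Fin n, q ≠ q' →
      8 * m * cn A ρ i ∅ q q' ≤ (n - 2).choose i := by
    intro i q q' hq
    have hi : (i : ℕ) < m := i.isLt
    have h1 := hU n i m ρ A q q' hq hi.le hm
    have h2 := hNT q q' hq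
    have h3 : 0 < (n - 2).choose m := Nat.choose_pos (by omega)
    refine Nat.le_of_mul_le_mul_right ?_ h3
    calc 8 * m * cn A ρ i ∅ q q' * (n - 2).choose m
        = 8 * m * (cn A ρ i ∅ q q' * (n - 2).choose m) := by ring
      _ ≤ 8 * m * (cn A ρ m ∅ q q' * (n - 2).choose i) := Nat.mul_le_mul_left _ h1
      _ = 8 * m * cn A ρ m ∅ q q' * (n - 2).choose i := by ring
      _ ≤ (n - 2).choose m * (n - 2).choose i := Nat.mul_le_mul_right _ h2
      _ = _ := by ring
  have h1 : (univ.filter fun e : Fin m ↪ Fin n => ¬ Good A ρ e) ⊆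
      univ.biUnion fun i : Fin m => univ.filter fun e : Fin m ↪ Fin n =>
        ¬ 2 * (univ.filter fun x => x ∉ pre e i ∧ ¬ Rel A ρ (pre e i) (e i) x).card < n - i := by
    intro e he
    rw [mem_filter] at he
    have h2 := he.2
    unfold Good at h2
    rw [not_forall] at h2
    obtain ⟨i, hi⟩ := h2
    rw [mem_biUnion]
    exact ⟨i, mem_univ _, mem_filter.2 ⟨mem_univ _, hi⟩⟩
  have h2 := (card_le_card h1).trans card_biUnion_le
  refine Nat.le_of_mul_le_mul_left ?_ (show 0 < m by omega)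
  calc m * (4 * (univ.filter fun e : Fin m ↪ Fin n => ¬ Good A ρ e).card)
      = 4 * m * (univ.filter fun e : Fin m ↪ Fin n => ¬ Good A ρ e).card := by ring
    _ ≤ 4 * m * ∑ i : Fin m, (univ.filter fun e : Fin m ↪ Fin n => ¬ 2 * (univ.filter fun x =>
        x ∉ pre e i ∧ ¬ Rel A ρ (pre e i) (e i) x).card < n - i).card :=
        Nat.mul_le_mul_left _ h2
    _ = ∑ i : Fin m, 4 * m * (univ.filter fun e : Fin m ↪ Fin n => ¬ 2 * (univ.filter fun x =>
        x ∉ pre e i ∧ ¬ Rel A ρ (pre e i) (e i) x).card < n - i).card := by rw [mul_sum]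
    _ ≤ ∑ _i : Fin m, n.descFactorial m := sum_le_sum fun i _ => god_place hm i (hcn i)
    _ = m * n.descFactorial m := by
        rw [sum_const, card_univ, Fintype.card_fin, smul_eq_mul]

end Pool.Agent.SymDiam.HQ
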