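import Pool.Agent.Lib.MP_7b6720_al.HQ.Defs
import Pool.Agent.Lib.MP_7b6720_al.HS.Gro

set_option autoImplicit false

/-!
# Row IT3: iteration of the step
-/

namespace Pool.Agent.SymDiam.HQ

open Equiv Finset Pool.Agent.SymDiam.EX Pool.Agent.SymDiam.HS

theorem NT.le (hU : UpcStatement) {n : ℕ} {A : Set (Perm (Fin n))} {m m1 ρ : ℕ} (h : NT A m ρ)
    (h1 : m1 ≤ m) (hm : m + 2 ≤ n) : NT A m1 ρ := by
  intro q q' hq
  have h2 := hU n m1 m ρ A q q' hq h1 hm
  have h3 := h q q' hq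
  have hC : 0 < (n - 2).choose m := Nat.choose_pos (by omega)
  refine Nat.le_of_mul_le_mul_right ?_ hC
  calc 8 * m1 * cn A ρ m1 ∅ q q' * (n - 2).choose m
      = 8 * m1 * (cn A ρ m1 ∅ q q' * (n - 2).choose m) := by ring
    _ ≤ 8 * m1 * (cn A ρ m ∅ q q' * (n - 2).choose m1) := Nat.mul_le_mul_left _ h2
    _ ≤ 8 * m * (cn A ρ m ∅ q q' * (n - 2).choose m1) := Nat.mul_le_mul_right _ (by omega)
    _ = (8 * m * cn A ρ m ∅ q q') * (n - 2).choose m1 := by ring
    _ ≤ (n - 2).choose m * (n - 2).choose m1 := Nat.mul_le_mul_right _ h3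
    _ = _ := mul_comm _ _

/-- the factorial is large enough -/
theorem it_fact {n lam j m u : ℕ} (hlam : Nat.log 2 n = lam) (hl1 : 1 ≤ lam) (hj : 15 ≤ j)
    (hm : 2 ^ j ≤ m) (hu : u * (64 * lam) ≤ 2 ^ j * j) :
    2 * n ^ (4 * u) < ((m + 1) / 2).factorial := by
  obtain ⟨i, rfl⟩ : ∃ i, j = i + 2 := ⟨j - 2, by omega⟩
  have hn : n < 2 ^ (lam + 1) := by
    rw [← hlam]
    exact Nat.lt_pow_succ_log_self (by omega) n
  set M := 2 ^ i with hM
  have hM1 : 1 ≤ M := Nat.one_le_two_pow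
  have h2j : 2 ^ (i + 2) = 4 * M := by rw [pow_add, hM]; ring
  have hc : M + M ≤ (m + 1) / 2 := by
    rw [Nat.le_div_iff_mul_le (by omega)]
    omega
  have h1 : M.factorial * (M + 1) ^ M ≤ (M + M).factorial := Nat.factorial_mul_pow_le_factorial
  have h2 : (M + 1) ^ M ≤ ((m + 1) / 2).factorial :=
    calc (M + 1) ^ M ≤ M.factorial * (M + 1) ^ M :=
          Nat.le_mul_of_pos_left _ (Nat.factorial_pos _)
      _ ≤ (M + M).factorial := h1
      _ ≤ _ := Nat.factorial_le hc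
  have h3 : 2 * n ^ (4 * u) ≤ 2 ^ ((lam + 1) * (4 * u) + 1) := by
    rw [pow_succ 2 ((lam + 1) * (4 * u)), mul_comm]
    refine Nat.mul_le_mul_right _ ?_
    rw [pow_mul 2 (lam + 1) (4 * u)]
    exact Nat.pow_le_pow_left hn.le _
  have h4 : (lam + 1) * (4 * u) + 1 ≤ i * M := by
    have h5 : (lam + 1) * (4 * u) ≤ 2 * lam * (4 * u) := Nat.mul_le_mul_right _ (by omega)
    have h6 : 8 * (2 * lam * (4 * u)) ≤ 4 * M * (i + 2) := by
      calc 8 * (2 * lam * (4 * u)) = u * (64 * lam) := by ring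
        _ ≤ 2 ^ (i + 2) * (i + 2) := hu
        _ = 4 * M * (i + 2) := by rw [h2j]
    have h7 : 13 * M ≤ i * M := Nat.mul_le_mul_right _ (by omega)
    have h8 : 4 * M * (i + 2) = 4 * (i * M) + 8 * M := by ring
    omega
  calc 2 * n ^ (4 * u) ≤ 2 ^ ((lam + 1) * (4 * u) + 1) := h3
    _ ≤ 2 ^ (i * M) := Nat.pow_le_pow_right (by omega) h4
    _ = M ^ M := by rw [hM, ← pow_mul]
    _ < (M + 1) ^ M := Nat.pow_lt_pow_left (by omega) (by omega)
    _ ≤ _ := h2

/-- the exponential is small enough -/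
theorem it_exp {lam s j m u k : ℕ} (hl1 : 1 ≤ lam) (hs : 32768 * lam ≤ s) (hj : 15 ≤ j)
    (hm : m ≤ 2 ^ (j + 1)) (hk : k + 3 = m + 4 * u) (hu2 : 2 ≤ u) (hu3 : 64 * u ≤ 2 ^ j)
    (hu : 2 ^ j * j < (u + 1) * (64 * lam)) :
    80 * ((k : ℝ) + 3) ^ 3 * ((m + u : ℕ) : ℝ) *
      Real.exp (-((s : ℝ) * ((k : ℝ) - ((m + u : ℕ) : ℝ)) / (2 * k))) ≤ 1 := by
  have h2 : 2 ^ (j + 1) = 2 * 2 ^ j := by rw [pow_succ]; ring
  have h4 : (2 : ℕ) ^ (j + 2) = 4 * 2 ^ j := by rw [pow_add]; ring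
  have hk1 : 1 ≤ k := by omega
  have hk4 : k ≤ 2 ^ (j + 2) := by omega
  have hk3 : k + 3 ≤ 2 ^ (j + 2) := by omega
  have hmu : m + u ≤ 2 ^ (j + 2) := by omega
  have hkm : u + 1 + (m + u) ≤ k := by omega
  -- the exponent
  have hkr : (0 : ℝ) < k := by exact_mod_cast hk1
  have hdiff : ((u : ℝ) + 1) ≤ (k : ℝ) - ((m + u : ℕ) : ℝ) := by
    have : ((u + 1 + (m + u) : ℕ) : ℝ) ≤ (k : ℝ) := by exact_mod_cast hkm
    push_cast at this ⊢
    linarith
  have hlr : (0 : ℝ) < lam := by exact_mod_cast hl1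
  have hexp : (64 : ℝ) * j ≤ (s : ℝ) * ((k : ℝ) - ((m + u : ℕ) : ℝ)) / (2 * k) := by
    rw [le_div_iff₀ (by positivity)]
    have h5 : (64 : ℝ) * j * (2 * k) ≤ 64 * j * (2 * (4 * 2 ^ j)) := by
      have h6 : (k : ℝ) ≤ 4 * 2 ^ j := by
        have : (k : ℝ) ≤ ((2 ^ (j + 2) : ℕ) : ℝ) := by exact_mod_cast hk4
        rw [h4] at this
        push_cast at this
        exact this
      refine mul_le_mul_of_nonneg_left ?_ (by positivity)
      linarith
    have h7 : (2 : ℝ) ^ j * j ≤ (u + 1) * (64 * lam) := by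
      exact_mod_cast hu.le
    have h8 : (32768 : ℝ) * lam ≤ s := by exact_mod_cast hs
    calc (64 : ℝ) * j * (2 * k) ≤ 64 * j * (2 * (4 * 2 ^ j)) := h5
      _ = 512 * (2 ^ j * j) := by ring
      _ ≤ 512 * ((u + 1) * (64 * lam)) := by linarith
      _ = 32768 * lam * (u + 1) := by ring
      _ ≤ s * (u + 1) := mul_le_mul_of_nonneg_right h8 (by positivity)
      _ ≤ s * ((k : ℝ) - ((m + u : ℕ) : ℝ)) :=
          mul_le_mul_of_nonneg_left hdiff (Nat.cast_nonneg _)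
  have hE : Real.exp (-((s : ℝ) * ((k : ℝ) - ((m + u : ℕ) : ℝ)) / (2 * k))) ≤
      Real.exp (-(64 * (j : ℝ))) := Real.exp_le_exp.2 (by linarith)
  have hE2 : Real.exp (-(64 * (j : ℝ))) * (2 : ℝ) ^ (64 * j) ≤ 1 := by
    have h5 : (2 : ℝ) ^ (64 * j) ≤ Real.exp (64 * (j : ℝ)) := by
      have h6 : (2 : ℝ) ≤ Real.exp 1 := by
        have := Real.add_one_le_exp (1 : ℝ)
        linarith
      calc (2 : ℝ) ^ (64 * j) ≤ (Real.exp 1) ^ (64 * j) := pow_le_pow_left₀ (by norm_num) h6 _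
        _ = Real.exp (64 * (j : ℝ)) := by
            rw [← Real.exp_nat_mul]
            push_cast
            ring_nf
    calc Real.exp (-(64 * (j : ℝ))) * (2 : ℝ) ^ (64 * j)
        ≤ Real.exp (-(64 * (j : ℝ))) * Real.exp (64 * (j : ℝ)) :=
          mul_le_mul_of_nonneg_left h5 (Real.exp_pos _).le
      _ = 1 := by rw [← Real.exp_add]; simp
  have hpoly : 80 * ((k : ℝ) + 3) ^ 3 * ((m + u : ℕ) : ℝ) ≤ (2 : ℝ) ^ (64 * j) := by
    have h5 : 80 * (k + 3) ^ 3 * (m + u) ≤ 2 ^ (64 * j) := by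
      calc 80 * (k + 3) ^ 3 * (m + u) ≤ 2 ^ 7 * (2 ^ (j + 2)) ^ 3 * 2 ^ (j + 2) := by
            refine Nat.mul_le_mul (Nat.mul_le_mul (by norm_num) (Nat.pow_le_pow_left hk3 3)) hmu
        _ = 2 ^ (4 * j + 15) := by
            rw [← pow_mul, ← pow_add, ← pow_add]
            congr 1
            ring
        _ ≤ 2 ^ (64 * j) := Nat.pow_le_pow_right (by omega) (by omega)
    exact_mod_cast h5
  have hpos : (0 : ℝ) ≤ 80 * ((k : ℝ) + 3) ^ 3 * ((m + u : ℕ) : ℝ) := by positivity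
  calc 80 * ((k : ℝ) + 3) ^ 3 * ((m + u : ℕ) : ℝ) *
        Real.exp (-((s : ℝ) * ((k : ℝ) - ((m + u : ℕ) : ℝ)) / (2 * k)))
      ≤ 80 * ((k : ℝ) + 3) ^ 3 * ((m + u : ℕ) : ℝ) * Real.exp (-(64 * (j : ℝ))) :=
        mul_le_mul_of_nonneg_left hE hpos
    _ ≤ (2 : ℝ) ^ (64 * j) * Real.exp (-(64 * (j : ℝ))) :=
        mul_le_mul_of_nonneg_right hpoly (Real.exp_pos _).le
    _ = Real.exp (-(64 * (j : ℝ))) * (2 : ℝ) ^ (64 * j) := mul_comm _ _
    _ ≤ 1 := hE2

/-- one step -/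
theorem it_step (hP : Sp3Statement) {n s lam j m ρ : ℕ} {A : Set (Perm (Fin n))}
    (hlam : Nat.log 2 n = lam) (hj : 15 ≤ j) (hjl : j + 5 ≤ lam) (hs : 32768 * lam ≤ s)
    (hsj : s ≤ 2 ^ j) (hT : Tr A (s + 2) (n ^ (2 * s + 4))) (hm : 2 ^ j ≤ m)
    (hm' : m ≤ 2 ^ (j + 1)) (hρ : n ^ (3 * s + 11) ≤ ρ) (hN : NT A m ρ) :
    NT A (m + 2 ^ j * j / (64 * lam)) (2 ^ (j + 6) * ρ) := by
  have hl1 : 1 ≤ lam := by omega
  have hn1 : n ≠ 0 := by
    rintro rfl
    simp at hlam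
    omega
  have hlamn : 2 ^ lam ≤ n := by
    rw [← hlam]
    exact Nat.pow_log_le_self 2 hn1
  set u := 2 ^ j * j / (64 * lam) with hu
  have hua : u * (64 * lam) ≤ 2 ^ j * j := Nat.div_mul_le_self _ _
  have hub : 2 ^ j * j < (u + 1) * (64 * lam) := by
    have := Nat.lt_div_mul_add (show 0 < 64 * lam by omega) (a := 2 ^ j * j)
    calc 2 ^ j * j < u * (64 * lam) + 64 * lam := this
      _ = _ := by ring
  have hu2 : 2 ≤ u := by
    rw [hu, Nat.le_div_iff_mul_le (by omega)]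
    calc 2 * (64 * lam) ≤ s * 1 := by omega
      _ ≤ 2 ^ j * j := Nat.mul_le_mul hsj (by omega)
  have hu3 : 64 * u ≤ 2 ^ j := by
    refine Nat.le_of_mul_le_mul_right ?_ hl1
    calc 64 * u * lam = u * (64 * lam) := by ring
      _ ≤ 2 ^ j * j := hua
      _ ≤ 2 ^ j * lam := Nat.mul_le_mul_left _ (by omega)
  have h2 : 2 ^ (j + 1) = 2 * 2 ^ j := by rw [pow_succ]; ring
  have h32 : 32 * 2 ^ j ≤ n := by
    refine le_trans ?_ hlamn
    calc 32 * 2 ^ j = 2 ^ (j + 5) := by rw [pow_add]; ring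
      _ ≤ 2 ^ lam := Nat.pow_le_pow_right (by omega) hjl
  have h2j : 2 ^ 15 ≤ 2 ^ j := Nat.pow_le_pow_right (by omega) hj
  obtain ⟨k, hk⟩ : ∃ k, k + 3 = m + 4 * u := ⟨m + 4 * u - 3, by omega⟩
  have h1 := hP n s m (m + u) (4 * u) ((m + 1) / 2) k ρ (n ^ (2 * s + 4)) A (by omega) hT
    (by omega) (by omega) (by omega) hk (by omega) (it_fact hlam hl1 hj hm hua)
    (by omega) (it_exp hl1 hs hj hm' hk hu2 hu3 hub) hN
  refine h1.mono ?_
  have hmn : m + u ≤ n := by omega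
  have h5 : 2 * n ^ (2 * s + 4) * (n ^ 5 * (m + u) ^ s * (n + 1)) ≤ n ^ (3 * s + 11) := by
    have h6 : 2 * (n + 1) ≤ n * n := by nlinarith
    calc 2 * n ^ (2 * s + 4) * (n ^ 5 * (m + u) ^ s * (n + 1))
        ≤ 2 * n ^ (2 * s + 4) * (n ^ 5 * n ^ s * (n + 1)) :=
          Nat.mul_le_mul_left _ (Nat.mul_le_mul_right _ (Nat.mul_le_mul_left _
            (Nat.pow_le_pow_left hmn _)))
      _ = (n ^ (2 * s + 4) * n ^ 5 * n ^ s) * (2 * (n + 1)) := by ring
      _ ≤ (n ^ (2 * s + 4) * n ^ 5 * n ^ s) * (n * n) := Nat.mul_le_mul_left _ h6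
      _ = n ^ (3 * s + 11) := by
          rw [← pow_add, ← pow_add]
          have : 3 * s + 11 = (2 * s + 4 + 5 + s) + 1 + 1 := by ring
          rw [this, pow_succ, pow_succ]; ring
  calc 16 * m * ρ + 2 * n ^ (2 * s + 4) * (n ^ 5 * (m + u) ^ s * (n + 1))
      ≤ 16 * m * ρ + 1 * ρ := by
        rw [one_mul]
        exact Nat.add_le_add_left (h5.trans hρ) _
    _ = (16 * m + 1) * ρ := by ring
    _ ≤ 2 ^ (j + 6) * ρ := by
        refine Nat.mul_le_mul_right _ ?_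
        have h7 : 2 ^ (j + 6) = 64 * 2 ^ j := by rw [pow_add]; ring
        omega

/-- one phase -/
theorem it_phase (hU : UpcStatement) (hP : Sp3Statement) {n s lam j ρ : ℕ}
    {A : Set (Perm (Fin n))} (hlam : Nat.log 2 n = lam) (hj : 15 ≤ j) (hjl : j + 5 ≤ lam)
    (hs : 32768 * lam ≤ s) (hsj : s ≤ 2 ^ j) (hT : Tr A (s + 2) (n ^ (2 * s + 4)))
    (hρ : n ^ (3 * s + 11) ≤ ρ) (hN : NT A (2 ^ j) ρ) :
    NT A (2 ^ (j + 1)) (2 ^ (1344 * lam) * ρ) := by
  have hn1 : n ≠ 0 := by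
    rintro rfl
    simp at hlam
    omega
  have hlamn : 2 ^ lam ≤ n := by
    rw [← hlam]
    exact Nat.pow_log_le_self 2 hn1
  set q := 64 * lam with hq
  set u := 2 ^ j * j / q with hu
  have h2 : 2 ^ (j + 1) = 2 ^ j + 2 ^ j := by rw [pow_succ]; ring
  have hu1 : 1 ≤ u := by
    rw [hu, Nat.one_le_div_iff (by omega)]
    calc q ≤ s * 1 := by omega
      _ ≤ 2 ^ j * j := Nat.mul_le_mul hsj (by omega)
  have hua : u * q ≤ 2 ^ j * j := Nat.div_mul_le_self _ _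
  have hu2 : u ≤ 2 ^ j := by
    rw [hu]
    exact Nat.div_le_of_le_mul (by
      calc 2 ^ j * j ≤ 2 ^ j * q := Nat.mul_le_mul_left _ (by omega)
        _ = q * 2 ^ j := by ring)
  have hit : ∀ i : ℕ, i ≤ 2 ^ j / u + 1 →
      NT A (2 ^ j + i * u) (2 ^ ((j + 6) * i) * ρ) := by
    intro i
    induction i with
    | zero => intro _; simpa using hN
    | succ i ih =>
        intro hi
        have h1 := ih (by omega)
        have h3 : i * u ≤ 2 ^ j := by
          calc i * u ≤ (2 ^ j / u) * u := Nat.mul_le_mul_right _ (by omega)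
            _ ≤ 2 ^ j := Nat.div_mul_le_self _ _
        have h4 : n ^ (3 * s + 11) ≤ 2 ^ ((j + 6) * i) * ρ :=
          hρ.trans (Nat.le_mul_of_pos_left _ (Nat.pow_pos (by omega)))
        have h5 := it_step hP hlam hj hjl hs hsj hT (m := 2 ^ j + i * u) (by omega) (by omega)
          h4 h1
        have h6 : 2 ^ j + (i + 1) * u = 2 ^ j + i * u + u := by ring
        have h7 : 2 ^ ((j + 6) * (i + 1)) * ρ = 2 ^ (j + 6) * (2 ^ ((j + 6) * i) * ρ) := by
          rw [mul_add, mul_one, pow_add]; ring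
        rw [h6, h7]
        exact h5
  have h1 := hit (2 ^ j / u + 1) le_rfl
  have h3 : 2 ^ j < (2 ^ j / u + 1) * u := by
    have := Nat.lt_div_mul_add hu1 (a := 2 ^ j)
    calc 2 ^ j < 2 ^ j / u * u + u := this
      _ = _ := by ring
  have h4 : 2 ^ j / u * u ≤ 2 ^ j := Nat.div_mul_le_self _ _
  have h4' : (2 ^ j / u + 1) * u = 2 ^ j / u * u + u := by ring
  have h5 : 2 ^ j / u ≤ 2 * q / j := by
    rw [Nat.le_div_iff_mul_le (by omega)]
    have h6 : 2 ^ j * j ≤ 2 * q * u := by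
      have h7 := Nat.lt_div_mul_add (show 0 < q by omega) (a := 2 ^ j * j)
      rw [← hu] at h7
      have h8 : q ≤ u * q := Nat.le_mul_of_pos_left _ hu1
      have h9 : 2 * q * u = u * q + u * q := by ring
      omega
    refine Nat.le_of_mul_le_mul_right ?_ hu1
    calc 2 ^ j / u * j * u = 2 ^ j / u * u * j := by ring
      _ ≤ 2 ^ j * j := Nat.mul_le_mul_right _ h4
      _ ≤ 2 * q * u := h6
  have h32 : 32 * 2 ^ j ≤ n := by
    refine le_trans ?_ hlamn
    calc 32 * 2 ^ j = 2 ^ (j + 5) := by rw [pow_add]; ring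
      _ ≤ 2 ^ lam := Nat.pow_le_pow_right (by omega) hjl
  have h2j : 2 ^ 15 ≤ 2 ^ j := Nat.pow_le_pow_right (by omega) hj
  refine (NT.le hU h1 (by omega) (by omega)).mono ?_
  refine Nat.mul_le_mul_right _ (Nat.pow_le_pow_right (by omega) ?_)
  have h10 : j * (2 * q / j) ≤ 2 * q := Nat.mul_div_le _ _
  calc (j + 6) * (2 ^ j / u + 1) ≤ (7 * j) * (2 * q / j + 1) :=
        Nat.mul_le_mul (by omega) (by omega)
    _ = 7 * (j * (2 * q / j)) + 7 * j := by ring
    _ ≤ 7 * (2 * q) + 7 * j := by omega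
    _ ≤ 1344 * lam := by omega

theorem it3_proof (hS : SucStatement) (hB : Nb3Statement) (hU : UpcStatement)
    (hP : Sp3Statement) : It3Statement := by
  refine ⟨200000, 2 ^ 1000, fun n hn A hA => ?_⟩
  have hlam0 : 1000 ≤ Nat.log 2 n := Nat.le_log_of_pow_le Nat.one_lt_two hn
  have hn1 : n ≠ 0 := by
    rintro rfl
    simp at hlam0
  clear hn
  obtain ⟨lam, hlam⟩ : ∃ lam, Nat.log 2 n = lam := ⟨_, rfl⟩
  rw [hlam] at hlam0 ⊢
  have hlamn : 2 ^ lam ≤ n := by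
    rw [← hlam]
    exact Nat.pow_log_le_self 2 hn1
  have hnlam : n < 2 ^ (lam + 1) := by
    rw [← hlam]
    exact Nat.lt_pow_succ_log_self (by omega) n
  set j0 := Nat.log 2 (32768 * lam) + 1 with hj0
  have hj0a : 32768 * lam < 2 ^ j0 := Nat.lt_pow_succ_log_self (by omega) _
  have hj0b : 2 ^ j0 ≤ 65536 * lam := by
    have h1 : 2 ^ Nat.log 2 (32768 * lam) ≤ 32768 * lam := Nat.pow_log_le_self 2 (by omega)
    rw [hj0, pow_succ]
    omega
  have hbig : 65536 * lam ≤ 2 ^ (lam - 6) := by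
    have h1 : ∀ l : ℕ, 1000 ≤ l → 65536 * l ≤ 2 ^ (l - 6) := by
      intro l hl
      induction l, hl using Nat.le_induction with
      | base =>
          calc 65536 * 1000 ≤ 2 ^ 30 := by norm_num
            _ ≤ 2 ^ (1000 - 6) := Nat.pow_le_pow_right (by omega) (by norm_num)
      | succ l hl ih =>
          have h2 : 2 ^ (l + 1 - 6) = 2 * 2 ^ (l - 6) := by
            have : l + 1 - 6 = (l - 6) + 1 := by omega
            rw [this, pow_succ]; ring
          omega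
    exact h1 lam hlam0
  have hj0l : j0 ≤ lam - 6 := by
    by_contra hlt
    push Not at hlt
    have h1 : 2 ^ (lam - 6) < 2 ^ j0 := Nat.pow_lt_pow_right (by omega) hlt
    omega
  have hj015 : 15 ≤ j0 := by
    by_contra hlt
    push Not at hlt
    have h1 : 2 ^ j0 ≤ 2 ^ 15 := Nat.pow_le_pow_right (by omega) (by omega)
    omega
  set s := 2 ^ j0 with hs
  have hsn : 64 * s ≤ n := by
    refine le_trans ?_ hlamn
    calc 64 * s = 2 ^ (j0 + 6) := by rw [hs, pow_add]; ring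
      _ ≤ 2 ^ lam := Nat.pow_le_pow_right (by omega) (by omega)
  have hT : Tr A (s + 2) (n ^ (2 * s + 4)) := by
    have h1 := base hS hA (s + 2) (by omega) (by omega)
    have h2 : 2 * (s + 2) = 2 * s + 4 := by ring
    rw [h2] at h1
    exact h1
  have hbase : NT A s (n ^ (3 * s + 11)) := by
    refine (hB n s (n ^ (2 * s + 4)) A (Tr.le hT (by omega) (by omega))).mono ?_
    exact Nat.pow_le_pow_right (by omega) (by omega)
  have hph : ∀ J, j0 ≤ J → J + 4 ≤ lam →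
      NT A (2 ^ J) (2 ^ (1344 * lam * (J - j0)) * n ^ (3 * s + 11)) := by
    intro J hJ
    induction J, hJ using Nat.le_induction with
    | base => intro _; simpa using hbase
    | succ J hJ ih =>
        intro hJl
        have h1 : n ^ (3 * s + 11) ≤ 2 ^ (1344 * lam * (J - j0)) * n ^ (3 * s + 11) :=
          Nat.le_mul_of_pos_left _ (Nat.pow_pos (by omega))
        have h2 := it_phase hU hP hlam (by omega) (by omega) hj0a.le
          (Nat.pow_le_pow_right (by omega) hJ) hT h1 (ih (by omega))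
        refine h2.mono (le_of_eq ?_)
        have h3 : 1344 * lam * (J + 1 - j0) = 1344 * lam + 1344 * lam * (J - j0) := by
          have : J + 1 - j0 = (J - j0) + 1 := by omega
          rw [this]; ring
        rw [h3, pow_add]; ring
  refine ⟨2 ^ (lam - 4), 2 ^ (1344 * lam * (lam - 4 - j0)) * n ^ (3 * s + 11), ?_, ?_, ?_, ?_,
    hph (lam - 4) (by omega) (by omega)⟩
  · exact Nat.mul_pos (Nat.pow_pos (by omega)) (Nat.pow_pos (by omega))
  · have h1 : 2 ^ (1344 * lam * (lam - 4 - j0)) ≤ n ^ (1344 * lam) := by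
      calc 2 ^ (1344 * lam * (lam - 4 - j0)) ≤ 2 ^ (lam * (1344 * lam)) := by
            refine Nat.pow_le_pow_right (by omega) ?_
            rw [mul_comm lam (1344 * lam)]
            exact Nat.mul_le_mul_left _ (by omega)
        _ = (2 ^ lam) ^ (1344 * lam) := by rw [pow_mul]
        _ ≤ n ^ (1344 * lam) := Nat.pow_le_pow_left hlamn _
    calc 2 ^ (1344 * lam * (lam - 4 - j0)) * n ^ (3 * s + 11)
        ≤ n ^ (1344 * lam) * n ^ (3 * s + 11) := Nat.mul_le_mul_right _ h1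
      _ = n ^ (1344 * lam + (3 * s + 11)) := by rw [← pow_add]
      _ ≤ n ^ (200000 * lam) := Nat.pow_le_pow_right (by omega) (by omega)
  · have h1 : 2 ^ (lam + 1) = 32 * 2 ^ (lam - 4) := by
      have : lam + 1 = (lam - 4) + 5 := by omega
      rw [this, pow_add]
      ring
    omega
  · have h1 : 2 ^ lam = 16 * 2 ^ (lam - 4) := by
      have : lam = (lam - 4) + 4 := by omega
      conv_lhs => rw [this]
      rw [pow_add]
      ring
    omega

end Pool.Agent.SymDiam.HQ
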