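import Pool.Agent.Lib.MP_7b6720_al.HQ.Defs

set_option autoImplicit false

/-! Row NB3: exact transitivity gives near totality. -/

namespace Pool.Agent.SymDiam.HQ

open Equiv Finset Pool.Agent.SymDiam.EX Pool.Agent.SymDiam.HS

/-- `T` pointwise fixed, `q ↦ q'`. -/
theorem nb3_rel {n s r : ℕ} {A : Set (Perm (Fin n))} (h : Tr A (s + 1) r) {T : Finset (Fin n)}
    (hT : T.card = s) {q q' : Fin n} (hq : q ∉ T) (hq' : q' ∉ T) : Rel A r T q q' := by
  have h1 : ∀ p, p ∉ T → Function.Injective (Fin.snoc (α := fun _ => Fin n)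
      (fun i => T.orderEmbOfFin hT i) p : Fin (s + 1) → Fin n) := by
    intro p hp
    rw [Fin.snoc_injective_iff]
    refine ⟨(T.orderEmbOfFin hT).injective, ?_⟩
    rintro ⟨i, hi⟩
    exact hp (hi ▸ T.orderEmbOfFin_mem hT i)
  obtain ⟨g, h2, h3⟩ := h ⟨_, h1 q hq⟩ ⟨_, h1 q' hq'⟩
  refine ⟨g, h2, fun p hp => ?_, ?_⟩
  · have h4 : p ∈ Set.range (T.orderEmbOfFin hT) := by
      rw [Finset.range_orderEmbOfFin]
      exact hp
    obtain ⟨i, rfl⟩ := h4
    have h5 := h3 i.castSucc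
    simpa [Function.Embedding.coeFn_mk, Fin.snoc_castSucc] using h5
  · have h5 := h3 (Fin.last s)
    simpa [Function.Embedding.coeFn_mk, Fin.snoc_last] using h5

/-- Row NB3. -/
theorem nb3_proof : Nb3Statement := by
  intro n s r A h q q' hne
  have h1 : cn A r s ∅ q q' = 0 := by
    classical
    unfold cn
    rw [card_eq_zero, eq_empty_iff_forall_notMem]
    intro T hT
    rw [mem_filter] at hT
    obtain ⟨hT, -, h2, h3, h4⟩ := hT
    exact h4 (nb3_rel h (mem_powersetCard.1 hT).2 h2 h3)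
  rw [h1, mul_zero]
  exact Nat.zero_le _

end Pool.Agent.SymDiam.HQ
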