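import Pool.Agent.Lib.MP_7b6720_al.HQ.Defs

set_option autoImplicit false

/-!
# ORD: orderings of sets
-/

namespace Pool.Agent.SymDiam.HQ

open Equiv Finset Pool.Agent.SymDiam.EX Pool.Agent.SymDiam.HS

/-- a set of size `m` has at least `m!` orderings -/
theorem ord_fib {n m : ℕ} (S : Finset (Fin n)) (hS : S.card = m) :
    m.factorial ≤ (univ.filter fun e : Fin m ↪ Fin n => univ.map e = S).card := by
  classical
  have h0 : univ.map (S.orderEmbOfFin hS).toEmbedding = S := by
    ext x
    simp only [mem_map, mem_univ, true_and]
    constructor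
    · rintro ⟨i, rfl⟩
      exact orderEmbOfFin_mem S hS i
    · intro hx
      have h1 : x ∈ Set.range (S.orderEmbOfFin hS) := by
        rw [range_orderEmbOfFin]
        exact hx
      exact h1
  have h1 : (univ : Finset (Perm (Fin m))).card = m.factorial := by
    rw [card_univ, Fintype.card_perm, Fintype.card_fin]
  rw [← h1]
  refine card_le_card_of_injOn
    (fun σ => σ.toEmbedding.trans (S.orderEmbOfFin hS).toEmbedding) ?_ ?_
  · intro σ _
    rw [mem_coe, mem_filter]
    refine ⟨mem_univ _, ?_⟩
    rw [← Finset.map_map, map_univ_equiv, h0]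
  · intro σ _ τ _ hστ
    ext i
    have h2 := congrArg (fun e : Fin m ↪ Fin n => e i) hστ
    have h3 : σ i = τ i := (S.orderEmbOfFin hS).injective h2
    rw [h3]

theorem ord_proof : OrdStatement := by
  classical
  intro n m Gd h
  -- `P` all sets, `G` the sets with many good orderings
  have hP : (powersetCard m (univ : Finset (Fin n))).card = n.choose m := by
    rw [card_powersetCard, card_univ, Fintype.card_fin]
  have h1 : (univ.filter fun e : Fin m ↪ Fin n => ¬ Gd e).card =
      ∑ S ∈ powersetCard m (univ : Finset (Fin n)),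
        ((univ.filter fun e : Fin m ↪ Fin n => ¬ Gd e).filter fun e => univ.map e = S).card := by
    refine card_eq_sum_card_fiberwise ?_
    intro e _
    rw [mem_coe, mem_powersetCard]
    exact ⟨subset_univ _, by rw [card_map, card_univ, Fintype.card_fin]⟩
  have h2 : ∀ S ∈ (powersetCard m (univ : Finset (Fin n))).filter (fun S =>
      ¬ m.factorial ≤ 2 * (univ.filter fun e : Fin m ↪ Fin n => univ.map e = S ∧ Gd e).card),
      m.factorial ≤ 2 * ((univ.filter fun e : Fin m ↪ Fin n => ¬ Gd e).filter fun e =>
        univ.map e = S).card := by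
    intro S hS
    rw [mem_filter, mem_powersetCard] at hS
    have h3 := ord_fib S hS.1.2
    have h4 : (univ.filter fun e : Fin m ↪ Fin n => univ.map e = S).card ≤
        (univ.filter fun e : Fin m ↪ Fin n => univ.map e = S ∧ Gd e).card +
          ((univ.filter fun e : Fin m ↪ Fin n => ¬ Gd e).filter fun e =>
            univ.map e = S).card := by
      refine (card_le_card ?_).trans (card_union_le _ _)
      intro e he
      rw [mem_union, mem_filter, mem_filter, mem_filter]
      have he' := (mem_filter.1 he).2
      by_cases hG : Gd e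
      · exact Or.inl ⟨mem_univ _, he', hG⟩
      · exact Or.inr ⟨⟨mem_univ _, hG⟩, he'⟩
    omega
  have h5 : ((powersetCard m (univ : Finset (Fin n))).filter (fun S =>
      ¬ m.factorial ≤ 2 * (univ.filter fun e : Fin m ↪ Fin n =>
        univ.map e = S ∧ Gd e).card)).card * m.factorial ≤
      2 * (univ.filter fun e : Fin m ↪ Fin n => ¬ Gd e).card := by
    rw [h1, mul_sum, ← smul_eq_mul]
    refine (card_nsmul_le_sum _ _ _ h2).trans ?_
    exact sum_le_sum_of_subset (filter_subset _ _)
  have h6 : n.descFactorial m = n.choose m * m.factorial := by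
    rw [Nat.descFactorial_eq_factorial_mul_choose, mul_comm]
  have h7 := card_filter_add_card_filter_not (s := powersetCard m (univ : Finset (Fin n)))
    (fun S => m.factorial ≤ 2 * (univ.filter fun e : Fin m ↪ Fin n => univ.map e = S ∧ Gd e).card)
  have h8 : 2 * ((powersetCard m (univ : Finset (Fin n))).filter (fun S =>
      ¬ m.factorial ≤ 2 * (univ.filter fun e : Fin m ↪ Fin n =>
        univ.map e = S ∧ Gd e).card)).card ≤ n.choose m := by
    refine Nat.le_of_mul_le_mul_right ?_ (Nat.factorial_pos m)
    calc _ = 2 * (((powersetCard m (univ : Finset (Fin n))).filter (fun S =>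
      ¬ m.factorial ≤ 2 * (univ.filter fun e : Fin m ↪ Fin n =>
        univ.map e = S ∧ Gd e).card)).card * m.factorial) := by ring
      _ ≤ 2 * (2 * (univ.filter fun e : Fin m ↪ Fin n => ¬ Gd e).card) :=
        Nat.mul_le_mul_left _ h5
      _ ≤ n.choose m * m.factorial := by rw [← h6]; omega
  rw [hP] at h7
  omega

end Pool.Agent.SymDiam.HQ
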