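import Pool.Agent.Lib.MP_7b6720_al.HQ.Defs

set_option autoImplicit false

/-!
# Row PAI: counting
-/

namespace Pool.Agent.SymDiam.HQ

open Equiv Finset Pool.Agent.SymDiam.EX Pool.Agent.SymDiam.HS

theorem pai_choose (n k : ℕ) (h : k + 3 ≤ n) :
    n.choose (k + 3) * ((k + 3) * (k + 2) * (k + 1)) =
      n * (n - 1) * (n - k - 2) * (n - 2).choose k := by
  obtain ⟨m, rfl⟩ : ∃ m, n = m + 2 := ⟨n - 2, by omega⟩
  have h1 := Nat.add_one_mul_choose_eq (m + 1) (k + 2)
  have h2 := Nat.add_one_mul_choose_eq m (k + 1)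
  have h3 := Nat.choose_succ_right_eq m k
  have e1 : m + 2 - 1 = m + 1 := by omega
  have e2 : m + 2 - k - 2 = m - k := by omega
  have e3 : m + 2 - 2 = m := by omega
  rw [e1, e2, e3]
  calc (m + 2).choose (k + 3) * ((k + 3) * (k + 2) * (k + 1))
      = ((m + 1 + 1).choose (k + 2 + 1) * (k + 2 + 1)) * ((k + 2) * (k + 1)) := by ring
    _ = ((m + 1 + 1) * (m + 1).choose (k + 2)) * ((k + 2) * (k + 1)) := by rw [h1]
    _ = (m + 2) * ((m + 1).choose (k + 1 + 1) * (k + 1 + 1)) * (k + 1) := by ring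
    _ = (m + 2) * ((m + 1) * m.choose (k + 1)) * (k + 1) := by rw [h2]
    _ = (m + 2) * (m + 1) * (m.choose (k + 1) * (k + 1)) := by ring
    _ = (m + 2) * (m + 1) * (m.choose k * (m - k)) := by rw [h3]
    _ = (m + 2) * (m + 1) * (m - k) * m.choose k := by ring

theorem pai_proof : PaiStatement := by
  classical
  intro n k R A hn hr
  by_contra hc
  push Not at hc
  obtain ⟨N, hN⟩ : ∃ N : Fin n → Fin n → Finset (Finset (Fin n)), ∀ q q', N q q' =
      (powersetCard k (univ : Finset (Fin n))).filter fun P => q ∉ P ∧ q' ∉ P ∧ Rel A R P q q' :=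
    ⟨_, fun _ _ => rfl⟩
  have h1 : ∀ q q' : Fin n, q ≠ q' → 5 * (k + 3) ^ 3 * (N q q').card ≤ (n - 2).choose k := by
    intro q q' h
    rw [hN]
    exact hc q q' h
  obtain ⟨Rs, hRs⟩ : ∃ Rs : Finset (Finset (Fin n)), Rs =
      (powersetCard (k + 3) (univ : Finset (Fin n))).filter fun Ψ => Rich A R k Ψ := ⟨_, rfl⟩
  have h2 : Rs ⊆ (univ : Finset (Fin n)).offDiag.biUnion fun a =>
      (univ : Finset (Fin n)).biUnion fun l =>
        (N a.1 a.2).image fun P => insert a.1 (insert a.2 (insert l P)) := by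
    intro Ψ hΨ
    rw [hRs, mem_filter] at hΨ
    obtain ⟨-, P, q, q', l, hP, hq, hq', hl, hqq, -, -, hE, hR⟩ := hΨ
    rw [mem_biUnion]
    refine ⟨(q, q'), mem_offDiag.2 ⟨mem_univ _, mem_univ _, hqq⟩, ?_⟩
    rw [mem_biUnion]
    refine ⟨l, mem_univ _, mem_image.2 ⟨P, ?_, hE.symm⟩⟩
    rw [hN, mem_filter, mem_powersetCard]
    exact ⟨⟨subset_univ _, hP⟩, hq, hq', hR⟩
  have h3 : Rs.card ≤ ∑ a ∈ (univ : Finset (Fin n)).offDiag, n * (N a.1 a.2).card := by
    refine (card_le_card h2).trans (card_biUnion_le.trans (sum_le_sum fun a _ => ?_))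
    refine card_biUnion_le.trans ?_
    have h4 : ∀ l ∈ (univ : Finset (Fin n)),
        ((N a.1 a.2).image fun P => insert a.1 (insert a.2 (insert l P))).card ≤
          (N a.1 a.2).card := fun l _ => card_image_le
    refine (sum_le_sum h4).trans ?_
    rw [sum_const, card_univ, Fintype.card_fin, smul_eq_mul]
  have h5 : 5 * (k + 3) ^ 3 * Rs.card ≤ n * (n * (n - 1)) * (n - 2).choose k := by
    calc 5 * (k + 3) ^ 3 * Rs.card
        ≤ 5 * (k + 3) ^ 3 * ∑ a ∈ (univ : Finset (Fin n)).offDiag, n * (N a.1 a.2).card :=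
          Nat.mul_le_mul_left _ h3
      _ = ∑ a ∈ (univ : Finset (Fin n)).offDiag, n * (5 * (k + 3) ^ 3 * (N a.1 a.2).card) := by
          rw [mul_sum]
          refine sum_congr rfl fun a _ => by ring
      _ ≤ ∑ a ∈ (univ : Finset (Fin n)).offDiag, n * (n - 2).choose k := by
          refine sum_le_sum fun a ha => Nat.mul_le_mul_left _ ?_
          exact h1 a.1 a.2 (mem_offDiag.1 ha).2.2
      _ = n * (n * (n - 1)) * (n - 2).choose k := by
          rw [sum_const, offDiag_card, card_univ, Fintype.card_fin, smul_eq_mul]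
          have h6 : n * n - n = n * (n - 1) := by
            rw [Nat.mul_sub, mul_one]
          rw [h6]
          ring
  rw [← hRs] at hr
  have h7 := pai_choose n k (by omega)
  have h8 : (k + 3) * (k + 2) * (k + 1) ≤ (k + 3) ^ 3 := by
    calc (k + 3) * (k + 2) * (k + 1) ≤ (k + 3) * (k + 3) * (k + 3) :=
          Nat.mul_le_mul (Nat.mul_le_mul (le_refl _) (by omega)) (by omega)
      _ = (k + 3) ^ 3 := by ring
  have hpos : 0 < (n - 2).choose k := Nat.choose_pos (by omega)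
  have h9 : (5 * (n - k - 2)) * ((k + 3) ^ 3 * (n * (n - 1) * (n - 2).choose k)) ≤
      (2 * n) * ((k + 3) ^ 3 * (n * (n - 1) * (n - 2).choose k)) := by
    calc (5 * (n - k - 2)) * ((k + 3) ^ 3 * (n * (n - 1) * (n - 2).choose k))
        = 5 * (k + 3) ^ 3 * (n * (n - 1) * (n - k - 2) * (n - 2).choose k) := by ring
      _ = 5 * (k + 3) ^ 3 * (n.choose (k + 3) * ((k + 3) * (k + 2) * (k + 1))) := by rw [h7]
      _ ≤ 5 * (k + 3) ^ 3 * ((2 * Rs.card) * ((k + 3) * (k + 2) * (k + 1))) :=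
          Nat.mul_le_mul_left _ (Nat.mul_le_mul_right _ hr)
      _ = (2 * (k + 3) * (k + 2) * (k + 1)) * (5 * (k + 3) ^ 3 * Rs.card) := by ring
      _ ≤ (2 * (k + 3) * (k + 2) * (k + 1)) * (n * (n * (n - 1)) * (n - 2).choose k) :=
          Nat.mul_le_mul_left _ h5
      _ = ((k + 3) * (k + 2) * (k + 1)) * (2 * (n * (n * (n - 1)) * (n - 2).choose k)) := by ring
      _ ≤ (k + 3) ^ 3 * (2 * (n * (n * (n - 1)) * (n - 2).choose k)) :=
          Nat.mul_le_mul_right _ h8
      _ = (2 * n) * ((k + 3) ^ 3 * (n * (n - 1) * (n - 2).choose k)) := by ring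
  have h10 : 0 < (k + 3) ^ 3 * (n * (n - 1) * (n - 2).choose k) := by
    have : 0 < n := by omega
    have : 0 < n - 1 := by omega
    positivity
  have h11 := Nat.le_of_mul_le_mul_right h9 h10
  omega

end Pool.Agent.SymDiam.HQ
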