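import Pool.Agent.Lib.MP_7b6720_al.HQ.Defs

set_option autoImplicit false

/-!
# RIC: half of the sets of size `k + 3` are rich
-/

namespace Pool.Agent.SymDiam.HQ

open Equiv Finset Pool.Agent.SymDiam.EX Pool.Agent.SymDiam.HS

/-- the number of supersets of a given size -/
theorem ric_above {n : ℕ} (N h : ℕ) (Θ : Finset (Fin n)) (hΘ : Θ.card = N) :
    ((powersetCard (N + h) (univ : Finset (Fin n))).filter fun Ψ => Θ ⊆ Ψ).card =
      (n - N).choose h := by
  have h1 : ((powersetCard (N + h) (univ : Finset (Fin n))).filter fun Ψ => Θ ⊆ Ψ) =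
      (powersetCard h Θᶜ).image fun H => Θ ∪ H := by
    ext Ψ
    simp only [mem_filter, mem_powersetCard, subset_univ, true_and, mem_image]
    constructor
    · rintro ⟨h1, h2⟩
      refine ⟨Ψ \ Θ, ⟨?_, ?_⟩, ?_⟩
      · intro x hx
        rw [mem_compl]
        exact (mem_sdiff.1 hx).2
      · rw [card_sdiff_of_subset h2, h1, hΘ]
        omega
      · exact union_sdiff_of_subset h2
    · rintro ⟨H, ⟨h1, h2⟩, rfl⟩
      refine ⟨?_, subset_union_left⟩
      rw [card_union_of_disjoint, hΘ, h2]
      rw [disjoint_left]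
      intro x hx hx'
      exact (mem_compl.1 (h1 hx')) hx
  rw [h1, card_image_of_injOn, card_powersetCard, card_compl, Fintype.card_fin, hΘ]
  intro H hH H' hH' he
  have hd : ∀ K : Finset (Fin n), K ⊆ Θᶜ → (Θ ∪ K) \ Θ = K := by
    intro K hK
    ext x
    simp only [mem_sdiff, mem_union]
    constructor
    · rintro ⟨h1 | h1, h2⟩
      · exact absurd h1 h2
      · exact h1
    · intro hx
      exact ⟨Or.inr hx, mem_compl.1 (hK hx)⟩
  have h2 := congrArg (fun K => K \ Θ) he
  simp only at h2
  rw [hd H (mem_powersetCard.1 (mem_coe.1 hH)).1, hd H' (mem_powersetCard.1 (mem_coe.1 hH')).1] at h2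
  exact h2

/-- a set with many good orderings makes every larger set of the right size rich -/
theorem ric_one (hPlc : PlcStatement) (hSup : SupStatement) {n m w c ρ k : ℕ}
    {A : Set (Perm (Fin n))} (hc : 2 * n ^ w < c.factorial) (hcm : 2 * c ≤ m + 1)
    (hk : k + 3 = m + w) (S Ψ : Finset (Fin n)) (hS : S.card = m) (hΨ : Ψ.card = k + 3)
    (hSΨ : S ⊆ Ψ) (G : Finset (Fin m ↪ Fin n)) (hG : ∀ e ∈ G, univ.map e = S ∧ Good A ρ e)
    (hGc : m.factorial ≤ 2 * G.card) : Rich A (16 * m * ρ) k Ψ := by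
  classical
  have hG0 : 0 < G.card := by
    have := m.factorial_pos
    omega
  obtain ⟨e, he⟩ := card_pos.1 hG0
  obtain ⟨heS, heg⟩ := hG e he
  have hmem : ∀ i, e i ∈ S := by
    intro i
    rw [← heS]
    exact mem_map_of_mem e (mem_univ i)
  have hex : ∀ x ∈ S, ∃ i, e i = x := by
    intro x hx
    rw [← heS, mem_map] at hx
    obtain ⟨i, _, hi⟩ := hx
    exact ⟨i, hi⟩
  -- the permutations with good composition
  obtain ⟨D, hD⟩ : ∃ D : Finset (Perm (Fin m)),
      D = univ.filter fun s : Perm (Fin m) => s.toEmbedding.trans e ∈ G := ⟨_, rfl⟩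
  have hDc : G.card ≤ D.card := by
    have h1 : G ⊆ D.image fun s : Perm (Fin m) => s.toEmbedding.trans e := by
      intro f hf
      have hfe : ∀ i, ∃ j, e j = f i := by
        intro i
        refine hex _ ?_
        rw [← (hG f hf).1]
        exact mem_map_of_mem f (mem_univ i)
      choose φ hφ using hfe
      have hφi : Function.Injective φ := by
        intro i j hij
        apply f.injective
        rw [← hφ i, ← hφ j, hij]
      have hs : (Equiv.ofBijective φ (Finite.injective_iff_bijective.1 hφi)).toEmbedding.trans e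
          = f := by
        ext i
        exact congrArg Fin.val (hφ i)
      rw [mem_image]
      refine ⟨Equiv.ofBijective φ (Finite.injective_iff_bijective.1 hφi), ?_, hs⟩
      rw [hD, mem_filter]
      refine ⟨mem_univ _, ?_⟩
      rw [hs]
      exact hf
    exact (card_le_card h1).trans card_image_le
  have hg : ∀ s ∈ D, ∃ g, InBall A (2 * m * ρ) g ∧ ∀ i, g (e i) = e (s i) := by
    intro s hs
    rw [hD, mem_filter] at hs
    obtain ⟨g, h1, h2⟩ := hPlc n m ρ A e (s.toEmbedding.trans e) heg (hG _ hs.2).2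
    exact ⟨g, h1, fun i => h2 i⟩
  have hQ : (Ψ \ S).card = w := by
    rw [card_sdiff_of_subset hSΨ, hΨ, hS]
    omega
  obtain ⟨z, i, j, l, hij, hil, hjl, hz, hzQ, hzi, hza⟩ :=
    hSup n m w c (2 * m * ρ) A e D (Ψ \ S) hg (hGc.trans (Nat.mul_le_mul_left 2 hDc)) hQ
      (fun i hi => (mem_sdiff.1 hi).2 (hmem i)) hc hcm
  have hei : e i ∈ Ψ := hSΨ (hmem i)
  have hej : e j ∈ Ψ := hSΨ (hmem j)
  have hel : e l ∈ Ψ := hSΨ (hmem l)
  have hij' : e i ≠ e j := fun h => hij (e.injective h)
  have hil' : e i ≠ e l := fun h => hil (e.injective h)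
  have hjl' : e j ≠ e l := fun h => hjl (e.injective h)
  have hP : ∀ x, x ∈ ((Ψ.erase (e i)).erase (e j)).erase (e l) ↔
      x ≠ e l ∧ x ≠ e j ∧ x ≠ e i ∧ x ∈ Ψ := by
    intro x
    simp only [mem_erase]
  refine ⟨((Ψ.erase (e i)).erase (e j)).erase (e l), e i, e j, e l, ?_, ?_, ?_, ?_, hij', hil',
    hjl', ?_, z, hz.mono (le_of_eq (by ring)), ?_, hzi⟩
  · rw [card_erase_of_mem, card_erase_of_mem, card_erase_of_mem hei, hΨ]
    · omega
    · exact mem_erase.2 ⟨hij'.symm, hej⟩
    · exact mem_erase.2 ⟨hjl'.symm, mem_erase.2 ⟨hil'.symm, hel⟩⟩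
  · rw [hP]
    exact fun h => h.2.2.1 rfl
  · rw [hP]
    exact fun h => h.2.1 rfl
  · rw [hP]
    exact fun h => h.1 rfl
  · ext x
    simp only [mem_insert, hP]
    constructor
    · intro hx
      by_cases h1 : x = e i
      · exact Or.inl h1
      by_cases h2 : x = e j
      · exact Or.inr (Or.inl h2)
      by_cases h3 : x = e l
      · exact Or.inr (Or.inr (Or.inl h3))
      exact Or.inr (Or.inr (Or.inr ⟨h3, h2, h1, hx⟩))
    · rintro (h | h | h | h)
      · rw [h]
        exact hei
      · rw [h]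
        exact hej
      · rw [h]
        exact hel
      · exact h.2.2.2
  · intro x hx
    rw [hP] at hx
    by_cases hxS : x ∈ S
    · obtain ⟨a, rfl⟩ := hex x hxS
      exact hza a (fun h => hx.2.2.1 (by rw [h])) (fun h => hx.2.1 (by rw [h]))
        fun h => hx.1 (by rw [h])
    · exact hzQ x (mem_sdiff.2 ⟨hx.2.2.2, hxS⟩)

theorem ric_proof (hGod : GodStatement) (hOrd : OrdStatement) (hPlc : PlcStatement)
    (hSup : SupStatement) : RicStatement := by
  classical
  intro n m w c ρ k A hm hmn hNT hc hcm hk hmw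
  have h1 := hGod n m ρ A hm hmn hNT
  have h2 := hOrd n m (fun e => Good A ρ e) h1
  obtain ⟨F, hF⟩ : ∃ F : Finset (Finset (Fin n)),
      F = (powersetCard m (univ : Finset (Fin n))).filter fun S =>
        m.factorial ≤ 2 * (univ.filter fun e : Fin m ↪ Fin n => univ.map e = S ∧ Good A ρ e).card :=
    ⟨_, rfl⟩
  obtain ⟨R, hR⟩ : ∃ R : Finset (Finset (Fin n)),
      R = (powersetCard (k + 3) (univ : Finset (Fin n))).filter fun Ψ =>
        Rich A (16 * m * ρ) k Ψ := ⟨_, rfl⟩
  rw [← hF] at h2
  rw [← hR]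
  -- double counting
  have h3 : ∑ S ∈ F, (n - m).choose w ≤ ∑ Ψ ∈ R, (k + 3).choose m := by
    have h4 := sum_card_bipartiteAbove_eq_sum_card_bipartiteBelow (s := F)
      (t := powersetCard (k + 3) (univ : Finset (Fin n))) (fun S Ψ => S ⊆ Ψ)
    have h5 : ∀ S ∈ F, (bipartiteAbove (fun S Ψ : Finset (Fin n) => S ⊆ Ψ)
        (powersetCard (k + 3) (univ : Finset (Fin n))) S).card = (n - m).choose w := by
      intro S hS
      rw [hF, mem_filter] at hS
      unfold bipartiteAbove
      rw [hk]
      exact ric_above m w S (mem_powersetCard.1 hS.1).2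
    rw [sum_congr rfl h5] at h4
    rw [h4]
    have h6 : ∀ Ψ ∈ powersetCard (k + 3) (univ : Finset (Fin n)),
        (bipartiteBelow (fun S Ψ : Finset (Fin n) => S ⊆ Ψ) F Ψ).card ≤
          if Ψ ∈ R then (k + 3).choose m else 0 := by
      intro Ψ hΨ
      have hΨc := (mem_powersetCard.1 hΨ).2
      split_ifs with h7
      · have h8 : bipartiteBelow (fun S Ψ : Finset (Fin n) => S ⊆ Ψ) F Ψ ⊆ powersetCard m Ψ := by
          intro S hS
          unfold bipartiteBelow at hS
          rw [mem_filter, hF, mem_filter] at hS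
          exact mem_powersetCard.2 ⟨hS.2, (mem_powersetCard.1 hS.1.1).2⟩
        have h9 := card_le_card h8
        rwa [card_powersetCard, hΨc] at h9
      · rw [Nat.le_zero, card_eq_zero, eq_empty_iff_forall_notMem]
        intro S hS
        unfold bipartiteBelow at hS
        rw [mem_filter, hF, mem_filter] at hS
        refine h7 ?_
        rw [hR, mem_filter]
        refine ⟨hΨ, ?_⟩
        exact ric_one hPlc hSup hc hcm hk S Ψ (mem_powersetCard.1 hS.1.1).2 hΨc hS.2 _
          (fun e he => (mem_filter.1 he).2) hS.1.2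
    refine (sum_le_sum h6).trans (le_of_eq ?_)
    rw [← sum_filter]
    refine sum_congr ?_ fun _ _ => rfl
    ext Ψ
    rw [mem_filter]
    constructor
    · exact fun h => h.2
    · intro h
      refine ⟨?_, h⟩
      rw [hR, mem_filter] at h
      exact h.1
  rw [sum_const, sum_const, smul_eq_mul, smul_eq_mul] at h3
  have h7 : n.choose (k + 3) * (k + 3).choose m = n.choose m * (n - m).choose w := by
    have h8 := Nat.choose_mul (n := n) (k := k + 3) (s := m) (by omega)
    rw [h8]
    congr 2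
    omega
  have h9 : 0 < (k + 3).choose m := Nat.choose_pos (by omega)
  refine Nat.le_of_mul_le_mul_right ?_ h9
  calc n.choose (k + 3) * (k + 3).choose m = n.choose m * (n - m).choose w := h7
    _ ≤ 2 * F.card * (n - m).choose w := Nat.mul_le_mul_right _ h2
    _ = 2 * (F.card * (n - m).choose w) := by ring
    _ ≤ 2 * (R.card * (k + 3).choose m) := Nat.mul_le_mul_left 2 h3
    _ = 2 * R.card * (k + 3).choose m := by ring

end Pool.Agent.SymDiam.HQ
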