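import Pool.Agent.Lib.MP_7b6720_al.HQ.Defs

set_option autoImplicit false

/-!
# The diameter of Cayley graphs of the symmetric groups: row SD3
-/

namespace Pool.Agent.SymDiam.HQ

open Finset

theorem sd3_pow (x : ℝ) (hx0 : 0 ≤ x) (hx1 : x ≤ 1) (s : ℕ) (h : (s : ℝ) * x ≤ 1) :
    (1 - x) ^ s ≤ 1 - (s : ℝ) * x / 2 := by
  induction s with
  | zero => simp
  | succ s ih =>
    push_cast at h ⊢
    have h0 : (0 : ℝ) ≤ s := by positivity
    have h1 : (s : ℝ) * x ≤ 1 := by nlinarith
    have h2 := ih h1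
    have h3 : (1 - x) ^ (s + 1) ≤ (1 - (s : ℝ) * x / 2) * (1 - x) := by
      rw [pow_succ]
      exact mul_le_mul_of_nonneg_right h2 (by linarith)
    have h4 : (s : ℝ) * x * x ≤ 1 * x := mul_le_mul_of_nonneg_right h1 hx0
    nlinarith

theorem sd3_proof : Sd3Statement := by
  intro N s m k V η β τ b hs hsm hmk hkN hV0 hVm hV3 hβ hβb hτ hend hstart hexp hη
  have hb : 0 < b := lt_of_lt_of_le hβ hβb
  have hs' : (1 : ℝ) ≤ s := by exact_mod_cast hs
  have hm' : (1 : ℝ) ≤ m := by exact_mod_cast (by omega : 1 ≤ m)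
  have hk' : (1 : ℝ) ≤ k := by exact_mod_cast (by omega : 1 ≤ k)
  have hkN' : 2 * (k : ℝ) ≤ N := by exact_mod_cast hkN
  have hmk' : (m : ℝ) ≤ k := by exact_mod_cast hmk.le
  set Λ : ℝ := (s : ℝ) / 2 * ((N : ℝ) - m + 1) with hΛ
  set cc : ℕ → ℝ := fun a => (a : ℝ) * ((N : ℝ) - a + 1) with hcc
  have hNm : 0 ≤ (N : ℝ) - m + 1 := by linarith
  have hcc0 : ∀ a : ℕ, 1 ≤ a → a ≤ k → 0 < cc a := by
    intro a h1 h2
    have h3 : (1 : ℝ) ≤ a := by exact_mod_cast h1
    have h4 : (a : ℝ) ≤ k := by exact_mod_cast h2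
    simp only [hcc]
    exact mul_pos (by linarith) (by linarith)
  -- the key property passes from `a` to `a + 1`
  have hstep : ∀ a, s + 1 ≤ a → a + 1 ≤ k → cc a * V (a - 1) ≤ (cc a - Λ) * V a →
      cc (a + 1) * V a ≤ (cc (a + 1) - Λ) * V (a + 1) := by
    intro a h1 h2 hC
    have h3 := hV3 (a + 1) (by omega) h2
    have e1 : a + 1 - 1 = a := by omega
    have e2 : a + 1 - 2 = a - 1 := by omega
    rw [e1, e2] at h3
    have hca : cc (a + 1) = cc a + ((N : ℝ) - 2 * a) := by
      simp only [hcc]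
      push_cast
      ring
    have hVb0 := hV0 (a + 1)
    rcases (hV0 a).eq_or_lt with hVa | hVa
    · rw [← hVa, mul_zero]
      refine mul_nonneg ?_ hVb0
      have ha1 : (s : ℝ) ≤ a := by exact_mod_cast (by omega : s ≤ a)
      have ha2 : (a : ℝ) + 1 ≤ k := by exact_mod_cast h2
      simp only [hcc, hΛ]
      push_cast
      have h5 : (s : ℝ) / 2 * ((N : ℝ) - m + 1) ≤ (s : ℝ) * ((N : ℝ) - a) := by
        have h6 : ((N : ℝ) - m + 1) / 2 ≤ (N : ℝ) - a := by linarith
        calc (s : ℝ) / 2 * ((N : ℝ) - m + 1) = (s : ℝ) * (((N : ℝ) - m + 1) / 2) := by ring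
          _ ≤ (s : ℝ) * ((N : ℝ) - a) := mul_le_mul_of_nonneg_left h6 (by linarith)
      have h7 : (s : ℝ) * ((N : ℝ) - a) ≤ ((a : ℝ) + 1) * ((N : ℝ) - a) :=
        mul_le_mul_of_nonneg_right (by linarith) (by linarith)
      have h8 : ((a : ℝ) + 1) * ((N : ℝ) - ((a : ℝ) + 1) + 1) = ((a : ℝ) + 1) * ((N : ℝ) - a) := by
        ring
      rw [h8]
      linarith
    · have h4 : cc (a + 1) * V a ^ 2 ≤ V (a + 1) * (cc a * V (a - 1) + ((N : ℝ) - 2 * a) * V a) := by
        have h5 : cc (a + 1) * V a ^ 2 = ((a + 1 : ℕ) : ℝ) * ((N : ℝ) - ((a + 1 : ℕ) : ℝ) + 1) *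
            V a ^ 2 := by
          simp only [hcc]
        rw [h5]
        refine h3.trans (le_of_eq ?_)
        simp only [hcc]
        push_cast
        ring
      have h5 : V (a + 1) * (cc a * V (a - 1) + ((N : ℝ) - 2 * a) * V a) ≤
          V (a + 1) * ((cc a - Λ) * V a + ((N : ℝ) - 2 * a) * V a) :=
        mul_le_mul_of_nonneg_left (by linarith) hVb0
      have h6 : V a * (cc (a + 1) * V a) ≤ V a * ((cc (a + 1) - Λ) * V (a + 1)) := by
        calc V a * (cc (a + 1) * V a) = cc (a + 1) * V a ^ 2 := by ring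
          _ ≤ V (a + 1) * ((cc a - Λ) * V a + ((N : ℝ) - 2 * a) * V a) := h4.trans h5
          _ = V a * ((cc (a + 1) - Λ) * V (a + 1)) := by rw [hca]; ring
      exact le_of_mul_le_mul_left h6 hVa
  by_cases hex : ∃ a, s + 1 ≤ a ∧ a ≤ m ∧ cc a * V (a - 1) ≤ (cc a - Λ) * V a
  · obtain ⟨a, h1, h2, hC⟩ := hex
    have hall : ∀ j, a + j ≤ k → cc (a + j) * V (a + j - 1) ≤ (cc (a + j) - Λ) * V (a + j) := by
      intro j
      induction j with
      | zero => intro _; exact hC
      | succ j ih =>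
        intro hj
        have h3 := hstep (a + j) (by omega) (by omega) (ih (by omega))
        have e1 : a + (j + 1) - 1 = a + j := by omega
        rw [e1, ← add_assoc]
        exact h3
    set E : ℝ := Real.exp (-((s : ℝ) / (2 * k))) with hE
    have hE0 : 0 < E := Real.exp_pos _
    have hone : ∀ c, m < c → c ≤ k → V (c - 1) ≤ E * V c := by
      intro c hc1 hc2
      have h3 := hall (c - a) (by omega)
      have e1 : a + (c - a) = c := by omega
      rw [e1] at h3
      have hc0 := hcc0 c (by omega) hc2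
      have hc1' : (m : ℝ) ≤ c := by exact_mod_cast hc1.le
      have hc2' : (c : ℝ) ≤ k := by exact_mod_cast hc2
      have h4 : (s : ℝ) / (2 * k) * cc c ≤ Λ := by
        have h5 : cc c ≤ (k : ℝ) * ((N : ℝ) - m + 1) := by
          simp only [hcc]
          exact mul_le_mul hc2' (by linarith) (by linarith) (by linarith)
        calc (s : ℝ) / (2 * k) * cc c ≤ (s : ℝ) / (2 * k) * ((k : ℝ) * ((N : ℝ) - m + 1)) :=
              mul_le_mul_of_nonneg_left h5 (by positivity)
          _ = Λ := by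
            rw [hΛ]
            field_simp
      have h6 : (cc c - Λ) * V c ≤ (cc c * (1 - (s : ℝ) / (2 * k))) * V c := by
        refine mul_le_mul_of_nonneg_right ?_ (hV0 c)
        have : cc c * (1 - (s : ℝ) / (2 * k)) = cc c - (s : ℝ) / (2 * k) * cc c := by ring
        rw [this]
        linarith
      have h7 : 1 - (s : ℝ) / (2 * k) ≤ E := by
        have := Real.add_one_le_exp (-((s : ℝ) / (2 * k)))
        rw [hE]
        linarith
      have h8 : cc c * V (c - 1) ≤ cc c * (E * V c) := by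
        calc cc c * V (c - 1) ≤ (cc c * (1 - (s : ℝ) / (2 * k))) * V c := h3.trans h6
          _ = cc c * ((1 - (s : ℝ) / (2 * k)) * V c) := by ring
          _ ≤ cc c * (E * V c) := mul_le_mul_of_nonneg_left
              (mul_le_mul_of_nonneg_right h7 (hV0 c)) hc0.le
      exact le_of_mul_le_mul_left h8 hc0
    have hpow : ∀ j, m + j ≤ k → V m ≤ E ^ j * V (m + j) := by
      intro j
      induction j with
      | zero => intro _; simp
      | succ j ih =>
        intro hj
        have h3 := hone (m + (j + 1)) (by omega) hj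
        have e1 : m + (j + 1) - 1 = m + j := by omega
        rw [e1] at h3
        calc V m ≤ E ^ j * V (m + j) := ih (by omega)
          _ ≤ E ^ j * (E * V (m + (j + 1))) :=
              mul_le_mul_of_nonneg_left h3 (pow_nonneg hE0.le _)
          _ = E ^ (j + 1) * V (m + (j + 1)) := by ring
    have h3 := hpow (k - m) (by omega)
    have e1 : m + (k - m) = k := by omega
    rw [e1] at h3
    have hEk : E ^ (k - m) = Real.exp (-((s : ℝ) * ((k : ℝ) - m) / (2 * k))) := by
      rw [hE, ← Real.exp_nat_mul, Nat.cast_sub hmk.le]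
      congr 1
      ring
    rw [hEk] at h3
    have h4 : V m ≤ τ * β * V k := h3.trans (mul_le_mul_of_nonneg_right hexp (hV0 k))
    rcases (hV0 k).eq_or_lt with hk0 | hk0
    · rw [← hk0]
      positivity
    · have h5 : V k * V k ≤ (τ * b ^ 2) * V k := by
        calc V k * V k = V k ^ 2 := by ring
          _ ≤ b * V m := hend
          _ ≤ b * (τ * β * V k) := mul_le_mul_of_nonneg_left h4 hb.le
          _ ≤ b * (τ * b * V k) := by
              refine mul_le_mul_of_nonneg_left ?_ hb.le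
              refine mul_le_mul_of_nonneg_right ?_ hk0.le
              exact mul_le_mul_of_nonneg_left hβb hτ.le
          _ = (τ * b ^ 2) * V k := by ring
      exact le_of_mul_le_mul_right h5 hk0
  · push Not at hex
    have hone : ∀ a, s ≤ a → a + 1 ≤ m → (a : ℝ) ^ s * V (a + 1) ≤ ((a : ℝ) + 1) ^ s * V a := by
      intro a h1 h2
      have h3 := hex (a + 1) (by omega) h2
      have e1 : a + 1 - 1 = a := by omega
      rw [e1] at h3
      have ha0 : (0 : ℝ) < (a : ℝ) + 1 := by positivity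
      have ha1 : (s : ℝ) ≤ a := by exact_mod_cast h1
      have ha2 : (a : ℝ) + 1 ≤ m := by exact_mod_cast h2
      have hc0 := hcc0 (a + 1) (by omega) (by omega)
      set x : ℝ := 1 / ((a : ℝ) + 1) with hx
      have hx0 : 0 ≤ x := by positivity
      have hx1 : x ≤ 1 := by
        rw [hx, div_le_one ha0]
        linarith
      have hsx : (s : ℝ) * x ≤ 1 := by
        rw [hx, mul_one_div, div_le_one ha0]
        linarith
      have h4 := sd3_pow x hx0 hx1 s hsx
      have h5 : Λ ≤ (s : ℝ) * x / 2 * cc (a + 1) := by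
        have h6 : (s : ℝ) * x / 2 * cc (a + 1) = (s : ℝ) / 2 * ((N : ℝ) - a) := by
          simp only [hcc, hx]
          push_cast
          field_simp
          ring
        rw [h6, hΛ]
        refine mul_le_mul_of_nonneg_left ?_ (by linarith)
        linarith
      have h7 : (1 - x) ^ s * V (a + 1) ≤ V a := by
        have h8 : (cc (a + 1) * (1 - (s : ℝ) * x / 2)) * V (a + 1) ≤ (cc (a + 1) - Λ) * V (a + 1) := by
          refine mul_le_mul_of_nonneg_right ?_ (hV0 _)
          have : cc (a + 1) * (1 - (s : ℝ) * x / 2) = cc (a + 1) - (s : ℝ) * x / 2 * cc (a + 1) := by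
            ring
          rw [this]
          linarith
        have h9 : cc (a + 1) * ((1 - x) ^ s * V (a + 1)) ≤ cc (a + 1) * V a := by
          calc cc (a + 1) * ((1 - x) ^ s * V (a + 1)) ≤
                cc (a + 1) * ((1 - (s : ℝ) * x / 2) * V (a + 1)) :=
                mul_le_mul_of_nonneg_left (mul_le_mul_of_nonneg_right h4 (hV0 _)) hc0.le
            _ = (cc (a + 1) * (1 - (s : ℝ) * x / 2)) * V (a + 1) := by ring
            _ ≤ cc (a + 1) * V a := h8.trans h3.le
        exact le_of_mul_le_mul_left h9 hc0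
      have h10 : (a : ℝ) ^ s = ((a : ℝ) + 1) ^ s * (1 - x) ^ s := by
        rw [← mul_pow]
        congr 1
        rw [hx]
        field_simp
        ring
      rw [h10, mul_assoc]
      exact mul_le_mul_of_nonneg_left h7 (by positivity)
    have hall : ∀ j, s + j ≤ m → (s : ℝ) ^ s * V (s + j) ≤ ((s + j : ℕ) : ℝ) ^ s * V s := by
      intro j
      induction j with
      | zero => intro _; exact le_rfl
      | succ j ih =>
        intro hj
        have h3 := hone (s + j) (by omega) (by omega)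
        have h4 := ih (by omega)
        have h5 : (0 : ℝ) < ((s + j : ℕ) : ℝ) ^ s := by
          have : 0 < s + j := by omega
          positivity
        have e1 : ((s + (j + 1) : ℕ) : ℝ) = ((s + j : ℕ) : ℝ) + 1 := by
          push_cast
          ring
        rw [e1, ← add_assoc]
        have h6 : ((s + j : ℕ) : ℝ) ^ s * ((s : ℝ) ^ s * V (s + j + 1)) ≤
            ((s + j : ℕ) : ℝ) ^ s * ((((s + j : ℕ) : ℝ) + 1) ^ s * V s) := by
          calc ((s + j : ℕ) : ℝ) ^ s * ((s : ℝ) ^ s * V (s + j + 1)) =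
                (s : ℝ) ^ s * (((s + j : ℕ) : ℝ) ^ s * V (s + j + 1)) := by ring
            _ ≤ (s : ℝ) ^ s * ((((s + j : ℕ) : ℝ) + 1) ^ s * V (s + j)) :=
                mul_le_mul_of_nonneg_left h3 (by positivity)
            _ = (((s + j : ℕ) : ℝ) + 1) ^ s * ((s : ℝ) ^ s * V (s + j)) := by ring
            _ ≤ (((s + j : ℕ) : ℝ) + 1) ^ s * (((s + j : ℕ) : ℝ) ^ s * V s) :=
                mul_le_mul_of_nonneg_left h4 (by positivity)
            _ = ((s + j : ℕ) : ℝ) ^ s * ((((s + j : ℕ) : ℝ) + 1) ^ s * V s) := by ring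
        exact le_of_mul_le_mul_left h6 h5
    have h3 := hall (m - s) (by omega)
    have e1 : s + (m - s) = m := by omega
    rw [e1] at h3
    have h4 : V m ≤ (m : ℝ) ^ s * V s := by
      have h5 : (1 : ℝ) ≤ (s : ℝ) ^ s := one_le_pow₀ hs'
      have h6 : 1 * V m ≤ (s : ℝ) ^ s * V m := mul_le_mul_of_nonneg_right h5 (hV0 m)
      linarith
    have h5 : V m ≤ τ ^ 2 * β * b ^ 2 := by
      calc V m ≤ (m : ℝ) ^ s * V s := h4
        _ ≤ (m : ℝ) ^ s * (η ^ 2 * b ^ 2) := mul_le_mul_of_nonneg_left hstart (by positivity)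
        _ = (η ^ 2 * (m : ℝ) ^ s) * b ^ 2 := by ring
        _ ≤ (τ ^ 2 * β) * b ^ 2 := mul_le_mul_of_nonneg_right hη (by positivity)
    have h6 : V k ^ 2 ≤ (τ * b ^ 2) ^ 2 := by
      calc V k ^ 2 ≤ b * V m := hend
        _ ≤ b * (τ ^ 2 * β * b ^ 2) := mul_le_mul_of_nonneg_left h5 hb.le
        _ = τ ^ 2 * b ^ 3 * β := by ring
        _ ≤ τ ^ 2 * b ^ 3 * b := mul_le_mul_of_nonneg_left hβb (by positivity)
        _ = (τ * b ^ 2) ^ 2 := by ring
    exact (pow_le_pow_iff_left₀ (hV0 k) (by positivity) (by norm_num)).1 h6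

end Pool.Agent.SymDiam.HQ
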