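import Pool.Agent.Lib.MP_7b6720_al.HQ.Defs
import Pool.Agent.Lib.MP_7b6720_al.HS.Spe

set_option autoImplicit false

/-!
# Row SE3: assembly of the spectral part
-/

namespace Pool.Agent.SymDiam.HQ

open Equiv Finset Pool.Agent.SymDiam.HS

theorem se3_proof (hA : SpaStatement) (hC : SpcStatement) (hP : SppStatement)
    (hD : Sd3Statement) : Se3Statement := by
  classical
  intro n E s m k Gs μ η β τ hs1 hsm hmk hN hGs hβ hτ hη hS hm hJ hητ
  set N := E.card with hNdef
  obtain ⟨v, rfl⟩ : ∃ v, m = s + v := ⟨m - s, by omega⟩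
  obtain ⟨J, rfl⟩ : ∃ J, k = s + v + J := ⟨k - (s + v), by omega⟩
  have hsv : s + v - s = v := by omega
  set k := s + v + J with hk
  set f1 : Finset (Fin n) → ℝ := fun T => if T ∈ Gs then 1 else 0 with hf1
  set b := Ex E (s + v) f1 with hb
  set f0 : Finset (Fin n) → ℝ := fun T => 1 * f1 T + (-b) * (fun _ => (1 : ℝ)) T with hf0
  set F := Up^[J] f0 with hF
  rw [hsv] at hm
  set c : ℝ := (((N - s).choose v : ℕ) : ℝ) with hc
  have hcpos : 0 < c := by
    rw [hc]
    exact_mod_cast Nat.choose_pos (by omega)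
  set κ := μ / c with hκ
  have hκβ : β ≤ κ := by rw [hκ, le_div_iff₀ hcpos]; exact hm
  have hκ0 : 0 < κ := lt_of_lt_of_le hβ hκβ
  -- the averages of `f1` over the supersets of the sets of size `s`
  have hD1 : ∀ S ⊆ E, S.card = s → κ ≤ (Dn E)^[v] f1 S ∧
      (Dn E)^[v] f1 S ≤ (1 + η) * κ := by
    intro S hSE hSc
    have h1 := Dn_it E f1 v S hSE (by omega)
    have h2 : ∑ T ∈ (powersetCard (S.card + v) E).filter (fun T => S ⊆ T), f1 T =
        ((Gs.filter fun T => S ⊆ T).card : ℝ) := by
      rw [hf1]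
      simp only
      rw [← sum_filter, sum_const, nsmul_eq_mul, mul_one, filter_filter]
      congr 2
      ext T
      rw [mem_filter, mem_filter, mem_powersetCard]
      constructor
      · rintro ⟨_, a3, a4⟩; exact ⟨a4, a3⟩
      · rintro ⟨a1, a2⟩
        obtain ⟨b1, b2⟩ := hGs T a1
        exact ⟨⟨b1, by rw [b2, hSc]⟩, a2, a1⟩
    rw [h2, hSc, ← hNdef, ← hc] at h1
    obtain ⟨h3, h4'⟩ := hS S hSE hSc
    rw [← h1] at h3 h4'
    constructor
    · rw [hκ, div_le_iff₀ hcpos, mul_comm]; exact h3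
    · rw [hκ, ← mul_div_assoc, le_div_iff₀ hcpos, mul_comm]; exact h4'
  -- its mean
  have hmean : Ex E s (fun S => (Dn E)^[v] f1 S) = b := by
    have h1 := Ex_adj hA E v s f1 (fun _ => 1) (by omega)
    rw [hb]
    have h3 : Ex E (s + v) (fun S => f1 S * Up^[v] (fun _ => (1 : ℝ)) S) = Ex E (s + v) f1 := by
      refine Ex_congr fun S _ hSc => ?_
      rw [Up_const 1 v S (by omega), mul_one]
    rw [← h3, ← h1]
    refine Ex_congr fun S _ _ => ?_
    rw [mul_one]
  have hbκ : κ ≤ b := by
    rw [← hmean, ← Ex_const (E := E) (a := s) (by omega) κ]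
    exact Ex_le fun S hSE hSc => (hD1 S hSE hSc).1
  have hbκ2 : b ≤ (1 + η) * κ := by
    rw [← hmean, ← Ex_const (E := E) (a := s) (by omega) ((1 + η) * κ)]
    exact Ex_le fun S hSE hSc => (hD1 S hSE hSc).2
  have hb0 : 0 < b := lt_of_lt_of_le hκ0 hbκ
  -- the averages of `F`
  have hG : ∀ S ⊆ E, S.card = s → κ ≤ (Dn E)^[v + J] (Up^[J] f1) S ∧
      (Dn E)^[v + J] (Up^[J] f1) S ≤ (1 + η) * κ := by
    intro S hSE hSc
    have hone : (Dn E)^[v] (fun _ => (1 : ℝ)) S = 1 := Dn_const E 1 v S hSE (by omega)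
    have hone2 : (Dn E)^[v + J] (Up^[J] (fun _ => (1 : ℝ))) S = 1 := by
      rw [Dn_congr_it (f := Up^[J] (fun _ => (1 : ℝ))) (g := fun _ => (1 : ℝ)) (v + J) s
        (fun T _ hTc => Up_const 1 J T (by omega)) S hSE hSc]
      exact Dn_const E 1 _ S hSE (by omega)
    constructor
    · have h1 := spp_it hP E s v (fun T => 1 * f1 T + (-κ) * (fun _ => (1 : ℝ)) T)
        (by
          intro S' hS' hS'c
          rw [Dn_lin_it]
          simp only
          rw [Dn_const E 1 v S' hS' (by omega)]
          have := (hD1 S' hS' hS'c).1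
          linarith) J (by omega) S hSE hSc
      rw [Up_lin_it, Dn_lin_it] at h1
      simp only at h1
      rw [hone2] at h1
      linarith
    · have h1 := spp_it hP E s v
        (fun T => (-1) * f1 T + ((1 + η) * κ) * (fun _ => (1 : ℝ)) T)
        (by
          intro S' hS' hS'c
          rw [Dn_lin_it]
          simp only
          rw [Dn_const E 1 v S' hS' (by omega)]
          have := (hD1 S' hS' hS'c).2
          linarith) J (by omega) S hSE hSc
      rw [Up_lin_it, Dn_lin_it] at h1
      simp only at h1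
      rw [hone2] at h1
      linarith
  have hFS : ∀ S ⊆ E, S.card = s → ((Dn E)^[v + J] F S) ^ 2 ≤ η ^ 2 * b ^ 2 := by
    intro S hSE hSc
    have hone2 : (Dn E)^[v + J] (Up^[J] (fun _ => (1 : ℝ))) S = 1 := by
      rw [Dn_congr_it (f := Up^[J] (fun _ => (1 : ℝ))) (g := fun _ => (1 : ℝ)) (v + J) s
        (fun T _ hTc => Up_const 1 J T (by omega)) S hSE hSc]
      exact Dn_const E 1 _ S hSE (by omega)
    rw [hF, hf0, Up_lin_it, Dn_lin_it]
    simp only
    rw [hone2]
    obtain ⟨h1, h2⟩ := hG S hSE hSc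
    have h3 : η * κ ≤ η * b := mul_le_mul_of_nonneg_left hbκ hη
    rw [← mul_pow]
    apply sq_le_sq'
    · linarith
    · linarith
  -- the sequence
  set V : ℕ → ℝ := fun a => Ex E a (fun S => ((Dn E)^[k - a] F S) ^ 2) with hV
  have hVstep : ∀ a, 1 ≤ a → a ≤ k → ∀ S, (Dn E)^[k - (a - 1)] F S =
      Dn E ((Dn E)^[k - a] F) S := by
    intro a ha hak S
    have h1 : k - (a - 1) = (k - a) + 1 := by omega
    rw [h1, Function.iterate_succ_apply']
  have hVk := hD N s (s + v) k V η β τ b hs1 hsm hmk hN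
    (fun a => Ex_nonneg fun S => sq_nonneg _)
    (by
      intro a ha hak
      have h1 := (hC n E a ((Dn E)^[k - a] F) (by omega) (by omega)).2
      rw [hV]
      simp only
      simp_rw [hVstep a (by omega) hak]
      exact h1)
    (by
      intro a ha hak
      have h1 := (hC n E a ((Dn E)^[k - a] F) (by omega) (by omega)).1
      rw [hV]
      simp only
      have h2 : ∀ S, (Dn E)^[k - (a - 2)] F S = Dn E (Dn E ((Dn E)^[k - a] F)) S := by
        intro S
        have h3 : k - (a - 2) = (k - a) + 1 + 1 := by omega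
        rw [h3, Function.iterate_succ_apply', Function.iterate_succ_apply']
      simp_rw [hVstep a (by omega) hak, h2]
      exact h1)
    hβ (hκβ.trans hbκ) hτ
    (by
      -- `V k ^ 2 ≤ b * V (s + v)`
      have h1 : V k = Ex E (s + v) (fun S => (Dn E)^[J] F S * f0 S) := by
        rw [Ex_adj hA E J (s + v) F f0 (by omega)]
        rw [hV]
        simp only
        rw [Nat.sub_self]
        refine Ex_congr fun S _ _ => ?_
        rw [Function.iterate_zero, id_eq, ← hF]
        ring
      have h2 : Ex E (s + v) (fun S => f0 S ^ 2) ≤ b := by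
        have h3 : Ex E (s + v) (fun S => f0 S ^ 2) =
            (1 - 2 * b) * Ex E (s + v) f1 + b ^ 2 * Ex E (s + v) (fun _ => 1) := by
          rw [← Ex_lin]
          refine Ex_congr fun S _ _ => ?_
          rw [hf0, hf1]
          simp only
          split_ifs <;> ring
        rw [h3, Ex_const (by omega), ← hb]
        nlinarith [sq_nonneg b]
      have h4' : V (s + v) = Ex E (s + v) (fun S => (Dn E)^[J] F S ^ 2) := by
        rw [hV]
        simp only
        have : k - (s + v) = J := by omega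
        rw [this]
      rw [h1, h4']
      calc Ex E (s + v) (fun S => (Dn E)^[J] F S * f0 S) ^ 2 ≤
          Ex E (s + v) (fun S => (Dn E)^[J] F S ^ 2) * Ex E (s + v) (fun S => f0 S ^ 2) :=
            Ex_cs _ _ _ _
        _ ≤ Ex E (s + v) (fun S => (Dn E)^[J] F S ^ 2) * b :=
            mul_le_mul_of_nonneg_left h2 (Ex_nonneg fun S => sq_nonneg _)
        _ = _ := mul_comm _ _)
    (by
      rw [hV]
      simp only
      rw [← Ex_const (E := E) (a := s) (by omega) (η ^ 2 * b ^ 2)]
      refine Ex_le fun S hSE hSc => ?_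
      have : k - s = v + J := by omega
      rw [this]
      exact hFS S hSE hSc)
    hJ hητ
  -- conclusion
  have hVk2 : V k = Ex E k (fun S => F S ^ 2) := by
    rw [hV]
    simp only
    rw [Nat.sub_self]
    rfl
  have hsum : ((((powersetCard k E).filter fun P => ∀ T ∈ Gs, ¬ T ⊆ P).card : ℕ) : ℝ) * b ^ 2 ≤
      ((N.choose k : ℕ) : ℝ) * V k := by
    rw [hVk2]
    unfold Ex
    rw [mul_div_cancel₀ _ (choose_pos' (by omega)).ne']
    calc ((((powersetCard k E).filter fun P => ∀ T ∈ Gs, ¬ T ⊆ P).card : ℕ) : ℝ) * b ^ 2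
        = ∑ P ∈ (powersetCard k E).filter (fun P => ∀ T ∈ Gs, ¬ T ⊆ P), b ^ 2 := by
          rw [sum_const, nsmul_eq_mul]
      _ = ∑ P ∈ (powersetCard k E).filter (fun P => ∀ T ∈ Gs, ¬ T ⊆ P), F P ^ 2 := by
          refine sum_congr rfl fun P hP' => ?_
          rw [mem_filter, mem_powersetCard] at hP'
          obtain ⟨⟨a1, a2⟩, a3⟩ := hP'
          have h1 : F P = -b := by
            rw [hF, hf0, Up_lin_it]
            simp only
            rw [Up_zero f1 J P (by
              intro T hT
              rw [hf1]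
              simp only
              rw [if_neg]
              exact fun hT' => a3 T hT' hT), Up_const 1 J P (by omega)]
            ring
          rw [h1]
          ring
      _ ≤ ∑ P ∈ powersetCard k E, F P ^ 2 :=
          sum_le_sum_of_subset_of_nonneg (filter_subset _ _) fun _ _ _ => sq_nonneg _
  have hb2 : 0 < b ^ 2 := by positivity
  have h5 : ((((powersetCard k E).filter fun P => ∀ T ∈ Gs, ¬ T ⊆ P).card : ℕ) : ℝ) * b ^ 2 ≤
      (τ * ((N.choose k : ℕ) : ℝ)) * b ^ 2 := by
    calc _ ≤ ((N.choose k : ℕ) : ℝ) * V k := hsum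
      _ ≤ ((N.choose k : ℕ) : ℝ) * (τ * b ^ 2) :=
          mul_le_mul_of_nonneg_left hVk (Nat.cast_nonneg _)
      _ = _ := by ring
  exact le_of_mul_le_mul_right h5 hb2

end Pool.Agent.SymDiam.HQ
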