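import Pool.Agent.Lib.MP_7b6720_al.HQ.Defs

set_option autoImplicit false

/-!
# Row SP3: the step
-/

namespace Pool.Agent.SymDiam.HQ

open Equiv Finset Pool.Agent.SymDiam.EX Pool.Agent.SymDiam.HS

/-- the complement of a pair -/
theorem sp3_card {n : ℕ} {q q' : Fin n} (h : q ≠ q') :
    ((univ : Finset (Fin n)) \ {q, q'}).card = n - 2 := by
  rw [card_sdiff_of_subset (subset_univ _), card_univ, Fintype.card_fin, card_pair h]

open Classical in
/-- the family of the bad sets -/
noncomputable def sp3G {n : ℕ} (A : Set (Perm (Fin n))) (ρ m : ℕ) (q q' : Fin n) :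
    Finset (Finset (Fin n)) :=
  (powersetCard m ((univ : Finset (Fin n)) \ {q, q'})).filter fun T => ¬ Rel A ρ T q q'

theorem sp3_mem {n : ℕ} {q q' : Fin n} {T : Finset (Fin n)} :
    T ⊆ (univ : Finset (Fin n)) \ {q, q'} ↔ q ∉ T ∧ q' ∉ T := by
  constructor
  · intro h
    refine ⟨fun h1 => ?_, fun h1 => ?_⟩
    · have h2 := h h1
      simp at h2
    · have h2 := h h1
      simp at h2
  · rintro ⟨h1, h2⟩ x hx
    rw [mem_sdiff, mem_insert, mem_singleton]
    refine ⟨mem_univ _, ?_⟩
    rintro (h3 | h3)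
    · exact h1 (h3 ▸ hx)
    · exact h2 (h3 ▸ hx)

open Classical in
theorem sp3_filter {n : ℕ} (A : Set (Perm (Fin n))) (ρ m : ℕ) (q q' : Fin n)
    (S : Finset (Fin n)) : ((sp3G A ρ m q q').filter fun T => S ⊆ T).card = cn A ρ m S q q' := by
  unfold cn sp3G
  congr 1
  ext T
  simp only [mem_filter, mem_powersetCard, sp3_mem]
  constructor
  · rintro ⟨⟨⟨h1, h2⟩, h3⟩, h4⟩
    exact ⟨⟨subset_univ _, h2⟩, h4, h1.1, h1.2, h3⟩
  · rintro ⟨⟨-, h2⟩, h4, h5, h6, h3⟩
    exact ⟨⟨⟨⟨h5, h6⟩, h2⟩, h3⟩, h4⟩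

/-- double counting of the pairs `S ⊆ T` -/
theorem sp3_dc {n : ℕ} (E : Finset (Fin n)) (Gs : Finset (Finset (Fin n))) (s m : ℕ)
    (hG : ∀ T ∈ Gs, T ⊆ E ∧ T.card = m) :
    ∑ S ∈ powersetCard s E, (Gs.filter fun T => S ⊆ T).card = Gs.card * m.choose s := by
  classical
  have h1 : ∀ S ∈ powersetCard s E, (Gs.filter fun T => S ⊆ T).card =
      ∑ T ∈ Gs, if S ⊆ T then 1 else 0 := by
    intro S _
    rw [card_filter]
  rw [sum_congr rfl h1, sum_comm]
  have h2 : ∀ T ∈ Gs, (∑ S ∈ powersetCard s E, if S ⊆ T then 1 else 0) = m.choose s := by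
    intro T hT
    obtain ⟨h3, h4⟩ := hG T hT
    rw [← card_filter]
    have h5 : (powersetCard s E).filter (fun S => S ⊆ T) = powersetCard s T := by
      ext S
      simp only [mem_filter, mem_powersetCard]
      constructor
      · rintro ⟨⟨_, h6⟩, h7⟩
        exact ⟨h7, h6⟩
      · rintro ⟨h6, h7⟩
        exact ⟨⟨h6.trans h3, h7⟩, h6⟩
    rw [h5, card_powersetCard, h4]
  rw [sum_congr rfl h2, sum_const, smul_eq_mul]

theorem sp3_pow (n H : ℕ) (hH : 0 < H) :
    (2 : ℝ) ^ n < (1 + 1 / (H : ℝ)) ^ (H * (n + 1)) := by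
  have hH' : (0 : ℝ) < H := by exact_mod_cast hH
  have h0 : (0 : ℝ) ≤ 1 / (H : ℝ) := by positivity
  have h1 : (2 : ℝ) ≤ (1 + 1 / (H : ℝ)) ^ H := by
    have h2 := one_add_mul_le_pow (a := 1 / (H : ℝ)) (by linarith) H
    have h3 : (H : ℝ) * (1 / (H : ℝ)) = 1 := by field_simp
    linarith
  calc (2 : ℝ) ^ n < 2 ^ (n + 1) := by
        rw [pow_succ]
        have : (0 : ℝ) < 2 ^ n := by positivity
        linarith
    _ ≤ ((1 + 1 / (H : ℝ)) ^ H) ^ (n + 1) := pow_le_pow_left₀ (by norm_num) h1 _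
    _ = _ := by rw [← pow_mul]

theorem sp3_proof (st : St3Statement) (se : Se3Statement) (ric : RicStatement)
    (pai : PaiStatement) : Sp3Statement := by
  classical
  intro n s m m' w c k ρ r A hs hTr hm hsm hmk hkw hkn hc1 hc2 hexp hNT
  have hn20 : 20 ≤ n := by omega
  set R := 16 * m * ρ with hR
  set H := n ^ 5 * m' ^ s with hH
  have hm'pos : 0 < m' := by omega
  have hHpos : 0 < H := by
    rw [hH]
    positivity
  have hHr : (0 : ℝ) < H := by exact_mod_cast hHpos
  set η : ℝ := 1 / (H : ℝ) with hη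
  have hη0 : 0 < η := by
    rw [hη]
    positivity
  have hη1 : η ≤ 1 := by
    rw [hη, div_le_one hHr]
    exact_mod_cast hHpos
  obtain ⟨j, hj, hst⟩ := st n s r m' R (H * (n + 1)) A η hη0 hTr (sp3_pow n H hHpos)
  set ρ' := R + 2 * r * j with hρ'
  -- the minimum
  set Tri : Finset (Finset (Fin n) × Fin n × Fin n) := univ.filter fun t =>
    t.1.card = s ∧ t.2.1 ∉ t.1 ∧ t.2.2 ∉ t.1 ∧ t.2.1 ≠ t.2.2 with hTri
  -- the rich sets give a pair
  obtain ⟨q, q', hq, hP⟩ := pai n k R A hkn
    (ric n m w c ρ k A hm (by omega) hNT hc1 hc2 hkw (by omega))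
  have hE := sp3_card hq
  obtain ⟨S1, hS1, hS1c⟩ := exists_subset_card_eq (s := (univ : Finset (Fin n)) \ {q, q'})
    (n := s) (by rw [hE]; omega)
  have hTne : Tri.Nonempty := by
    refine ⟨(S1, q, q'), ?_⟩
    rw [hTri, mem_filter]
    exact ⟨mem_univ _, hS1c, (sp3_mem.1 hS1).1, (sp3_mem.1 hS1).2, hq⟩
  obtain ⟨t0, ht0, hmin⟩ := exists_min_image Tri (fun t => cn A ρ' m' t.1 t.2.1 t.2.2) hTne
  rw [hTri, mem_filter] at ht0
  obtain ⟨-, t1, t2, t3, t4⟩ := ht0
  set μ : ℕ := cn A ρ' m' t0.1 t0.2.1 t0.2.2 with hμ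
  have hlo : ∀ S : Finset (Fin n), S.card = s → ∀ p p', p ∉ S → p' ∉ S → p ≠ p' →
      μ ≤ cn A ρ' m' S p p' := by
    intro S h1 p p' h2 h3 h4
    exact hmin (S, p, p') (by
      rw [hTri, mem_filter]
      exact ⟨mem_univ _, h1, h2, h3, h4⟩)
  have hhi : ∀ S : Finset (Fin n), S.card = s → ∀ p p', p ∉ S → p' ∉ S → p ≠ p' →
      (cn A ρ' m' S p p' : ℝ) ≤ (1 + η) * μ := by
    intro S h1 p p' h2 h3 h4
    exact hst S t0.1 h1 t1 p p' h2 h3 h4 _ _ t2 t3 t4
  -- numbers
  have hm'r : (1 : ℝ) ≤ m' := by exact_mod_cast hm'pos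
  have hkr : (0 : ℝ) < (k : ℝ) + 3 := by positivity
  set β : ℝ := 1 / (16 * m') with hβ
  set τ : ℝ := 1 / (5 * ((k : ℝ) + 3) ^ 3) with hτ
  have hβ0 : 0 < β := by
    rw [hβ]
    positivity
  have hτ0 : 0 < τ := by
    rw [hτ]
    positivity
  have hfin : NT A m' ρ' := by
    by_cases hcase : β * (((n - 2 - s).choose (m' - s) : ℕ) : ℝ) ≤ μ
    · exfalso
      have hG : ∀ T ∈ sp3G A ρ' m' q q', T ⊆ (univ : Finset (Fin n)) \ {q, q'} ∧ T.card = m' := by
        intro T hT
        unfold sp3G at hT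
        rw [mem_filter, mem_powersetCard] at hT
        exact hT.1
      have h1 := se n ((univ : Finset (Fin n)) \ {q, q'}) s m' k (sp3G A ρ' m' q q') μ η β τ hs hsm
        hmk (by rw [hE]; omega) hG hβ0 hτ0 hη0.le (by
          intro S hS hSc
          have h2 := sp3_mem.1 hS
          have h3 : ((sp3G A ρ' m' q q').filter fun T => S ⊆ T).card = cn A ρ' m' S q q' :=
            sp3_filter A ρ' m' q q' S
          rw [h3]
          exact ⟨by exact_mod_cast hlo S hSc q q' h2.1 h2.2 hq, hhi S hSc q q' h2.1 h2.2 hq⟩)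
        (by rw [hE]; exact hcase)
        (by
          rw [hτ, hβ, div_mul_div_comm, le_div_iff₀ (by positivity)]
          linarith)
        (by
          have e1 : η ^ 2 * (m' : ℝ) ^ s = 1 / ((n : ℝ) ^ 10 * (m' : ℝ) ^ s) := by
            rw [hη, hH]
            push_cast
            have : (n : ℝ) ≠ 0 := by
              have : 0 < n := by omega
              positivity
            field_simp
          have e2 : τ ^ 2 * β = 1 / (400 * ((k : ℝ) + 3) ^ 6 * m') := by
            rw [hτ, hβ]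
            field_simp
            norm_num
          rw [e1, e2]
          apply one_div_le_one_div_of_le (by positivity)
          have e3 : (m' : ℝ) ≤ (m' : ℝ) ^ s := by
            calc (m' : ℝ) = (m' : ℝ) ^ 1 := (pow_one _).symm
              _ ≤ (m' : ℝ) ^ s := pow_le_pow_right₀ hm'r hs
          have e4 : (k : ℝ) + 3 ≤ n := by
            have : k + 3 ≤ n := by omega
            exact_mod_cast this
          have e5 : (20 : ℝ) ≤ n := by exact_mod_cast hn20
          have e6 : 400 * ((k : ℝ) + 3) ^ 6 ≤ (n : ℝ) ^ 10 := by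
            calc 400 * ((k : ℝ) + 3) ^ 6 ≤ 20 ^ 4 * (n : ℝ) ^ 6 := by
                  have := pow_le_pow_left₀ hkr.le e4 6
                  have e7 : (0 : ℝ) ≤ (n : ℝ) ^ 6 := by positivity
                  nlinarith
              _ ≤ (n : ℝ) ^ 4 * (n : ℝ) ^ 6 :=
                  mul_le_mul_of_nonneg_right (pow_le_pow_left₀ (by norm_num) e5 4) (by positivity)
              _ = (n : ℝ) ^ 10 := by ring
          exact mul_le_mul e6 e3 (by positivity) (by positivity))
      rw [hE] at h1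
      have h2 : ((powersetCard k (univ : Finset (Fin n))).filter fun P =>
          q ∉ P ∧ q' ∉ P ∧ Rel A R P q q').card ≤
          ((powersetCard k ((univ : Finset (Fin n)) \ {q, q'})).filter fun P =>
            ∀ T ∈ sp3G A ρ' m' q q', ¬ T ⊆ P).card := by
        refine card_le_card ?_
        intro P hPm
        rw [mem_filter, mem_powersetCard] at hPm ⊢
        obtain ⟨⟨-, h3⟩, h4, h5, h6⟩ := hPm
        refine ⟨⟨sp3_mem.2 ⟨h4, h5⟩, h3⟩, fun T hT hTP => ?_⟩
        unfold sp3G at hT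
        rw [mem_filter] at hT
        exact hT.2 (h6.mono (by omega) hTP)
      have h3 : (((powersetCard k (univ : Finset (Fin n))).filter fun P =>
          q ∉ P ∧ q' ∉ P ∧ Rel A R P q q').card : ℝ) ≤ τ * (((n - 2).choose k : ℕ) : ℝ) :=
        le_trans (by exact_mod_cast h2) h1
      rw [hτ, div_mul_eq_mul_div, one_mul, le_div_iff₀ (by positivity)] at h3
      have h4 : (((n - 2).choose k : ℕ) : ℝ) < 5 * ((k : ℝ) + 3) ^ 3 *
          (((powersetCard k (univ : Finset (Fin n))).filter fun P =>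
            q ∉ P ∧ q' ∉ P ∧ Rel A R P q q').card : ℝ) := by exact_mod_cast hP
      linarith
    · rw [not_le] at hcase
      intro p p' hp
      have hEp := sp3_card hp
      have hG : ∀ T ∈ sp3G A ρ' m' p p', T ⊆ (univ : Finset (Fin n)) \ {p, p'} ∧ T.card = m' := by
        intro T hT
        unfold sp3G at hT
        rw [mem_filter, mem_powersetCard] at hT
        exact hT.1
      have h1 := sp3_dc _ (sp3G A ρ' m' p p') s m' hG
      have h2 : (sp3G A ρ' m' p p').card = cn A ρ' m' ∅ p p' := by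
        rw [← sp3_filter A ρ' m' p p' ∅]
        congr 1
        rw [filter_true_of_mem]
        intro T _
        exact empty_subset _
      rw [h2] at h1
      have h3 : ((∑ S ∈ powersetCard s ((univ : Finset (Fin n)) \ {p, p'}),
          ((sp3G A ρ' m' p p').filter fun T => S ⊆ T).card : ℕ) : ℝ) ≤
          ((n - 2).choose s : ℝ) * (2 * μ) := by
        push_cast
        calc ∑ S ∈ powersetCard s ((univ : Finset (Fin n)) \ {p, p'}),
              (((sp3G A ρ' m' p p').filter fun T => S ⊆ T).card : ℝ)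
            ≤ ∑ S ∈ powersetCard s ((univ : Finset (Fin n)) \ {p, p'}), (2 * μ : ℝ) := by
              refine sum_le_sum fun S hS => ?_
              rw [mem_powersetCard] at hS
              have h4 := sp3_mem.1 hS.1
              have h5 := hhi S hS.2 p p' h4.1 h4.2 hp
              have h6 : ((sp3G A ρ' m' p p').filter fun T => S ⊆ T).card = cn A ρ' m' S p p' :=
                sp3_filter A ρ' m' p p' S
              rw [h6]
              refine h5.trans ?_
              have h7 : (0 : ℝ) ≤ μ := by positivity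
              nlinarith
          _ = ((n - 2).choose s : ℝ) * (2 * μ) := by
              rw [sum_const, card_powersetCard, hEp, nsmul_eq_mul]
      rw [h1] at h3
      push_cast at h3
      have h4 : (n - 2).choose m' * m'.choose s = (n - 2).choose s * (n - 2 - s).choose (m' - s) :=
        Nat.choose_mul (by omega)
      have h4' : (((n - 2).choose m' : ℕ) : ℝ) * ((m'.choose s : ℕ) : ℝ) =
          (((n - 2).choose s : ℕ) : ℝ) * (((n - 2 - s).choose (m' - s) : ℕ) : ℝ) := by
        exact_mod_cast h4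
      have hc : (0 : ℝ) < ((m'.choose s : ℕ) : ℝ) := by
        exact_mod_cast Nat.choose_pos (by omega)
      have h5 : (cn A ρ' m' ∅ p p' : ℝ) * ((m'.choose s : ℕ) : ℝ) ≤
          (2 * β * (((n - 2).choose m' : ℕ) : ℝ)) * ((m'.choose s : ℕ) : ℝ) := by
        calc (cn A ρ' m' ∅ p p' : ℝ) * ((m'.choose s : ℕ) : ℝ)
            ≤ (((n - 2).choose s : ℕ) : ℝ) * (2 * μ) := h3
          _ ≤ (((n - 2).choose s : ℕ) : ℝ) *
              (2 * (β * (((n - 2 - s).choose (m' - s) : ℕ) : ℝ))) := by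
              refine mul_le_mul_of_nonneg_left ?_ (by positivity)
              linarith
          _ = 2 * β * ((((n - 2).choose s : ℕ) : ℝ) *
              (((n - 2 - s).choose (m' - s) : ℕ) : ℝ)) := by ring
          _ = _ := by rw [← h4']; ring
      have h6 := le_of_mul_le_mul_right h5 hc
      have h7 : 8 * (m' : ℝ) * (cn A ρ' m' ∅ p p' : ℝ) ≤ (((n - 2).choose m' : ℕ) : ℝ) := by
        have h8 : 8 * (m' : ℝ) * (2 * β * (((n - 2).choose m' : ℕ) : ℝ)) =
            (((n - 2).choose m' : ℕ) : ℝ) := by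
          rw [hβ]
          field_simp
          norm_num
        rw [← h8]
        exact mul_le_mul_of_nonneg_left h6 (by positivity)
      exact_mod_cast h7
  refine hfin.mono ?_
  rw [hρ']
  have : 2 * r * j ≤ 2 * r * (H * (n + 1)) := Nat.mul_le_mul_left _ hj
  omega

end Pool.Agent.SymDiam.HQ
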