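import Pool.Agent.Lib.MP_7b6720_al.HQ.Defs

set_option autoImplicit false

/-!
# Row ST3: a stable radius, pairs of points (after `HT/Sta2.lean` of helper9)
-/

namespace Pool.Agent.SymDiam.HQ

open Equiv Finset Pool.Agent.SymDiam.EX Pool.Agent.SymDiam.HS

theorem st3_rel {n : ℕ} {A : Set (Perm (Fin n))} {r ρ : ℕ} {g : Perm (Fin n)}
    (hg : InBall A r g) (T : Finset (Fin n)) {q q' : Fin n}
    (h : Rel A ρ (T.image g) (g q) (g q')) : Rel A (ρ + 2 * r) T q q' := by
  obtain ⟨z, h1, h2, h3⟩ := h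
  refine ⟨g⁻¹ * z * g, ((hg.inv.mul h1).mul hg).mono (by omega), fun p hp => ?_, ?_⟩
  · rw [Perm.mul_apply, Perm.mul_apply, h2 (g p) (mem_image_of_mem _ hp)]
    exact g.symm_apply_apply p
  · rw [Perm.mul_apply, Perm.mul_apply, h3]
    exact g.symm_apply_apply q'

/-- the number of good supersets is monotone under the action -/
theorem st3_cnt {n : ℕ} {A : Set (Perm (Fin n))} {r ρ : ℕ} {g : Perm (Fin n)}
    (hg : InBall A r g) (m : ℕ) (S : Finset (Fin n)) (q q' : Fin n) :
    cn A (ρ + 2 * r) m S q q' ≤ cn A ρ m (S.image g) (g q) (g q') := by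
  classical
  unfold cn
  refine card_le_card_of_injOn (fun T => T.image g) ?_ ?_
  · intro T hT
    rw [mem_coe, mem_filter, mem_powersetCard] at hT ⊢
    obtain ⟨⟨-, h1⟩, h2, h3, h4, h5⟩ := hT
    refine ⟨⟨subset_univ _, ?_⟩, image_subset_image h2, ?_, ?_, ?_⟩
    · rw [card_image_of_injective _ g.injective, h1]
    · intro h6
      obtain ⟨x, hx, hxq⟩ := mem_image.1 h6
      exact h3 (g.injective hxq ▸ hx)
    · intro h6
      obtain ⟨x, hx, hxq⟩ := mem_image.1 h6
      exact h4 (g.injective hxq ▸ hx)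
    · intro h6
      exact h5 (st3_rel hg T h6)
  · intro T _ T' _ hTT
    exact image_injective g.injective hTT

/-- a tuple that lists `q`, `q'` and the elements of `S` -/
theorem st3_tup {n k : ℕ} (S : Finset (Fin n)) (hS : S.card = k) (q q' : Fin n) (hq : q ∉ S)
    (hq' : q' ∉ S) (hqq : q ≠ q') :
    ∃ e : Fin (k + 2) ↪ Fin n, e 0 = q ∧ e 1 = q' ∧
      ∀ x, x ∈ S ↔ ∃ i : Fin k, e i.succ.succ = x := by
  classical
  have φ : Fin k ≃ S := (finCongr hS.symm).trans S.equivFin.symm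
  refine ⟨⟨Fin.cons q (Fin.cons q' fun i => ((φ i : S) : Fin n)), ?_⟩, rfl, rfl, ?_⟩
  · rw [Fin.cons_injective_iff, Fin.cons_injective_iff]
    refine ⟨?_, ?_, ?_⟩
    · rintro ⟨i, hi⟩
      refine Fin.cases ?_ ?_ i hi
      · intro h1
        exact hqq h1.symm
      · intro j h1
        exact hq (h1 ▸ (φ j).2)
    · rintro ⟨i, hi⟩
      exact hq' (hi ▸ (φ i).2)
    · intro i j hij
      exact φ.injective (Subtype.ext hij)
  · intro x
    constructor
    · intro hx
      exact ⟨φ.symm ⟨x, hx⟩, by simp⟩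
    · rintro ⟨i, rfl⟩
      exact (φ i).2

theorem st3_move {n s r ρ m : ℕ} {A : Set (Perm (Fin n))} (h : Tr A (s + 2) r)
    {S S' : Finset (Fin n)} (hS : S.card = s) (hS' : S'.card = s) {q q' p p' : Fin n}
    (hq : q ∉ S) (hq' : q' ∉ S) (hqq : q ≠ q') (hp : p ∉ S') (hp' : p' ∉ S') (hpp : p ≠ p') :
    cn A (ρ + 2 * r) m S q q' ≤ cn A ρ m S' p p' := by
  classical
  obtain ⟨e, he0, he1, heS⟩ := st3_tup S hS q q' hq hq' hqq
  obtain ⟨e', he0', he1', heS'⟩ := st3_tup S' hS' p p' hp hp' hpp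
  obtain ⟨g, hg, hm⟩ := h e e'
  have h1 : g q = p := by rw [← he0, hm 0, he0']
  have h1' : g q' = p' := by rw [← he1, hm 1, he1']
  have h2 : S.image g = S' := by
    ext x
    rw [mem_image]
    constructor
    · rintro ⟨z, hz, rfl⟩
      obtain ⟨i, rfl⟩ := (heS z).1 hz
      rw [hm]
      exact (heS' _).2 ⟨i, rfl⟩
    · intro hx
      obtain ⟨i, rfl⟩ := (heS' x).1 hx
      exact ⟨e i.succ.succ, (heS _).2 ⟨i, rfl⟩, hm _⟩
  rw [← h1, ← h1', ← h2]
  exact st3_cnt hg m S q q'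

theorem st3_proof : St3Statement := by
  classical
  intro n s r m ρ I A η hη hT hI
  by_contra hcon
  push Not at hcon
  choose S S' hS hS' q q' hq hq' hqq p p' hp hp' hpp hlt using hcon
  -- the chain of inequalities
  have hη1 : (0 : ℝ) < 1 + η := by linarith
  have key : ∀ j (hj : j ≤ I),
      (1 + η) ^ j * (cn A (ρ + 2 * r * j) m (S j hj) (q j hj) (q' j hj) : ℝ) ≤
      (cn A (ρ + 2 * r * 0) m (S 0 (Nat.zero_le _)) (q 0 (Nat.zero_le _))
        (q' 0 (Nat.zero_le _)) : ℝ) := by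
    intro j
    induction j with
    | zero => intro hj; rw [pow_zero, one_mul]
    | succ j ih =>
        intro hj
        have hj' : j ≤ I := by omega
        have h1 := ih hj'
        have h2 := hlt j hj'
        have h3 : cn A (ρ + 2 * r * (j + 1)) m (S (j + 1) hj) (q (j + 1) hj)
            (q' (j + 1) hj) ≤ cn A (ρ + 2 * r * j) m (S' j hj') (p j hj') (p' j hj') := by
          have e1 : ρ + 2 * r * (j + 1) = ρ + 2 * r * j + 2 * r := by ring
          rw [e1]
          exact st3_move hT (hS _ _) (hS' _ _) (hq _ _) (hq' _ _) (hqq _ _) (hp _ _)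
            (hp' _ _) (hpp _ _)
        have h4 : (cn A (ρ + 2 * r * (j + 1)) m (S (j + 1) hj) (q (j + 1) hj)
            (q' (j + 1) hj) : ℝ) ≤
            (cn A (ρ + 2 * r * j) m (S' j hj') (p j hj') (p' j hj') : ℝ) := by
          exact_mod_cast h3
        calc (1 + η) ^ (j + 1) *
              (cn A (ρ + 2 * r * (j + 1)) m (S (j + 1) hj) (q (j + 1) hj)
                (q' (j + 1) hj) : ℝ)
            ≤ (1 + η) ^ (j + 1) *
                (cn A (ρ + 2 * r * j) m (S' j hj') (p j hj') (p' j hj') : ℝ) :=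
              mul_le_mul_of_nonneg_left h4 (by positivity)
          _ = (1 + η) ^ j * ((1 + η) *
                (cn A (ρ + 2 * r * j) m (S' j hj') (p j hj') (p' j hj') : ℝ)) := by
              rw [pow_succ]; ring
          _ ≤ (1 + η) ^ j *
                (cn A (ρ + 2 * r * j) m (S j hj') (q j hj') (q' j hj') : ℝ) :=
              mul_le_mul_of_nonneg_left h2.le (by positivity)
          _ ≤ _ := h1
  have h1 := key I le_rfl
  have h2 := hlt I le_rfl
  have h3 : 1 ≤ cn A (ρ + 2 * r * I) m (S I le_rfl) (q I le_rfl) (q' I le_rfl) := by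
    rw [Nat.one_le_iff_ne_zero]
    intro h0
    rw [h0] at h2
    have : (0 : ℝ) ≤ (1 + η) *
        (cn A (ρ + 2 * r * I) m (S' I le_rfl) (p I le_rfl) (p' I le_rfl) : ℝ) := by
      positivity
    push_cast at h2
    linarith
  have h4 : (1 : ℝ) ≤
      (cn A (ρ + 2 * r * I) m (S I le_rfl) (q I le_rfl) (q' I le_rfl) : ℝ) := by
    exact_mod_cast h3
  have h5 : cn A (ρ + 2 * r * 0) m (S 0 (Nat.zero_le _)) (q 0 (Nat.zero_le _))
      (q' 0 (Nat.zero_le _)) ≤ 2 ^ n := by
    unfold cn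
    refine (card_filter_le _ _).trans ?_
    refine (card_le_card (subset_univ _)).trans ?_
    rw [card_univ, Fintype.card_finset, Fintype.card_fin]
  have h6 : (cn A (ρ + 2 * r * 0) m (S 0 (Nat.zero_le _)) (q 0 (Nat.zero_le _))
      (q' 0 (Nat.zero_le _)) : ℝ) ≤ (2 : ℝ) ^ n := by exact_mod_cast h5
  have h7 : (1 + η) ^ I * 1 ≤ (1 + η) ^ I *
      (cn A (ρ + 2 * r * I) m (S I le_rfl) (q I le_rfl) (q' I le_rfl) : ℝ) :=
    mul_le_mul_of_nonneg_left h4 (by positivity)
  linarith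

end Pool.Agent.SymDiam.HQ
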