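import Pool.Agent.Lib.MP_7b6720_al.HQ.Defs

set_option autoImplicit false

/-!
# Row SUP: pigeonhole and commutator
-/

namespace Pool.Agent.SymDiam.HQ

open Equiv Finset Pool.Agent.SymDiam.EX Pool.Agent.SymDiam.HS

/-- the number of permutations with support in `C` -/
theorem card_sup {m : ℕ} (C : Finset (Fin m)) :
    (univ.filter fun π : Perm (Fin m) => ∀ x, x ∉ C → π x = x).card = C.card.factorial := by
  classical
  have h1 : (univ.filter fun π : Perm (Fin m) => ∀ x, x ∉ C → π x = x).card =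
      Fintype.card {π : Perm (Fin m) // ∀ x, ¬ x ∈ C → π x = x} := by
    rw [Fintype.card_subtype]
  rw [h1, ← Fintype.card_congr (Perm.subtypeEquivSubtypePerm fun x => x ∈ C), Fintype.card_perm,
    Fintype.card_coe]

theorem sup_proof (hT : TriStatement) (hC : ComStatement) : SupStatement := by
  classical
  intro n m w c R A e D Q hD hDc hQ heQ hcw hcm
  have hg : ∀ s, ∃ g : Perm (Fin n), s ∈ D → InBall A R g ∧ ∀ i, g (e i) = e (s i) := by
    intro s
    by_cases hs : s ∈ D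
    · obtain ⟨g, h1, h2⟩ := hD s hs
      exact ⟨g, fun _ => ⟨h1, h2⟩⟩
    · exact ⟨1, fun h => absurd h hs⟩
  choose g hg using hg
  have hnw : 1 ≤ n ^ w := by
    rcases Nat.eq_zero_or_pos n with h0 | h0
    · subst h0
      have : w = 0 := by
        rw [← hQ, card_eq_zero]
        exact eq_empty_of_forall_notMem fun x => x.elim0
      rw [this, pow_zero]
    · exact Nat.one_le_pow _ _ h0
  have hc1 : 1 ≤ c := by
    rcases Nat.eq_zero_or_pos c with h | h
    · rw [h, Nat.factorial_zero] at hcw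
      omega
    · exact h
  -- a large fibre
  obtain ⟨b, hb⟩ : ∃ b : Q → Fin n, D.card ≤ n ^ w *
      (D.filter fun s => (fun q : Q => g s q) = b).card := by
    by_contra hcon
    push Not at hcon
    have h1 : D.card = ∑ b : Q → Fin n, (D.filter fun s => (fun q : Q => g s q) = b).card :=
      card_eq_sum_card_fiberwise fun _ _ => mem_coe.2 (mem_univ _)
    have h2 : (univ : Finset (Q → Fin n)).card = n ^ w := by
      rw [card_univ, Fintype.card_fun, Fintype.card_fin, Fintype.card_coe, hQ]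
    have h3 : ∑ b : Q → Fin n, n ^ w * (D.filter fun s => (fun q : Q => g s q) = b).card <
        ∑ _b : Q → Fin n, D.card := by
      refine sum_lt_sum_of_nonempty ?_ fun b _ => hcon b
      rw [← card_pos, h2]
      exact hnw
    rw [← mul_sum, ← h1, sum_const, h2, smul_eq_mul] at h3
    exact lt_irrefl _ h3
  set D' := D.filter fun s => (fun q : Q => g s q) = b with hD'
  have hD'1 : ∀ s ∈ D', s ∈ D := fun s hs => (mem_filter.1 hs).1
  have hD'2 : ∀ s ∈ D', ∀ s' ∈ D', ∀ q ∈ Q, g s q = g s' q := by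
    intro s hs s' hs' q hq
    have h1 := congrFun (mem_filter.1 hs).2 ⟨q, hq⟩
    have h2 := congrFun (mem_filter.1 hs').2 ⟨q, hq⟩
    exact h1.trans h2.symm
  have hD'0 : 1 ≤ D'.card := by
    by_contra h
    have h0 : D'.card = 0 := by omega
    rw [h0, mul_zero] at hb
    have := Nat.factorial_pos m
    omega
  have hlt : m.factorial < D'.card * c.factorial := by
    calc m.factorial ≤ 2 * D.card := hDc
      _ ≤ 2 * (n ^ w * D'.card) := Nat.mul_le_mul_left _ hb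
      _ = D'.card * (2 * n ^ w) := by ring
      _ < D'.card * c.factorial := Nat.mul_lt_mul_of_pos_left hcw hD'0
  -- the supports
  let F : Finset (Fin m) → Prop := fun X => ∃ s ∈ D', ∃ t ∈ D', s ≠ t ∧ X = (s⁻¹ * t).support
  have hF0 : ¬ F ∅ := by
    rintro ⟨s, _, t, _, hst, h⟩
    refine hst ?_
    rw [eq_comm, Perm.support_eq_empty_iff] at h
    exact inv_mul_eq_one.1 h
  have hFC : ∀ C : Finset (Fin m), C.card = c → ∃ X, F X ∧ X ⊆ C := by
    intro C hCc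
    set SC := univ.filter fun π : Perm (Fin m) => ∀ x, x ∉ C → π x = x with hSC
    have hcard : (univ : Finset (Perm (Fin m))).card < (D' ×ˢ SC).card := by
      rw [card_product, hSC, card_sup, hCc, card_univ, Fintype.card_perm, Fintype.card_fin]
      exact hlt
    obtain ⟨⟨s, π⟩, h1, ⟨t, τ⟩, h2, hne, heq⟩ := exists_ne_map_eq_of_card_lt_of_maps_to
      (f := fun p : Perm (Fin m) × Perm (Fin m) => p.1 * p.2) hcard fun _ _ => mem_coe.2 (mem_univ _)
    rw [mem_product] at h1 h2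
    simp only [hSC, mem_filter, mem_univ, true_and] at h1 h2 heq
    have h3 : s⁻¹ * t = π * τ⁻¹ := by
      rw [eq_mul_inv_iff_mul_eq, mul_assoc, ← heq, inv_mul_cancel_left]
    have hst : s ≠ t := by
      intro h
      subst h
      exact hne (by rw [mul_left_cancel heq])
    refine ⟨(s⁻¹ * t).support, ⟨s, h1.1, t, h2.1, hst, rfl⟩, fun x hx => ?_⟩
    by_contra hxC
    rw [Perm.mem_support] at hx
    refine hx ?_
    rw [h3, Perm.mul_apply, Perm.inv_eq_iff_eq.2 (h2.2 x hxC).symm, h1.2 x hxC]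
  obtain ⟨X, X', p, ⟨s, hs, t, ht, -, hX⟩, ⟨s', hs', t', ht', -, hX'⟩, hXX⟩ :=
    hT m c F hF0 hc1 hcm hFC
  rw [hX, hX'] at hXX
  obtain ⟨i, j, l, hij, hil, hjl, h1, h2⟩ := hC m (s⁻¹ * t) (s'⁻¹ * t') p hXX
  have key : ∀ s ∈ D', ∀ t ∈ D', ∀ a, ((g s)⁻¹ * g t) (e a) = e ((s⁻¹ * t) a) := by
    intro s hs t ht a
    rw [Perm.mul_apply, Perm.mul_apply, (hg t (hD'1 t ht)).2, Perm.inv_eq_iff_eq,
      (hg s (hD'1 s hs)).2]
    exact congrArg e (s.apply_symm_apply (t a)).symm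
  have keyi : ∀ s ∈ D', ∀ t ∈ D', ∀ a, ((g s)⁻¹ * g t)⁻¹ (e a) = e ((s⁻¹ * t)⁻¹ a) := by
    intro s hs t ht a
    rw [Perm.inv_eq_iff_eq, key s hs t ht]
    exact congrArg e ((s⁻¹ * t).apply_symm_apply a).symm
  have keyq : ∀ s ∈ D', ∀ t ∈ D', ∀ q ∈ Q, ((g s)⁻¹ * g t) q = q := by
    intro s hs t ht q hq
    rw [Perm.mul_apply, Perm.inv_eq_iff_eq, hD'2 s hs t ht q hq]
  have keyqi : ∀ s ∈ D', ∀ t ∈ D', ∀ q ∈ Q, ((g s)⁻¹ * g t)⁻¹ q = q := by
    intro s hs t ht q hq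
    rw [Perm.inv_eq_iff_eq, keyq s hs t ht q hq]
  have hB : ∀ s ∈ D', ∀ t ∈ D', InBall A (R + R) ((g s)⁻¹ * g t) := fun s hs t ht =>
    ((hg s (hD'1 s hs)).1.inv).mul (hg t (hD'1 t ht)).1
  have fin : ∀ (x y : Perm (Fin n)) (σ τ : Perm (Fin m)), (∀ a, x (e a) = e (σ a)) →
      (∀ a, x⁻¹ (e a) = e (σ⁻¹ a)) → (∀ a, y (e a) = e (τ a)) → (∀ a, y⁻¹ (e a) = e (τ⁻¹ a)) →
      ∀ a, (x⁻¹ * y⁻¹ * x * y) (e a) = e ((σ⁻¹ * τ⁻¹ * σ * τ) a) := by
    intro x y σ τ k1 k2 k3 k4 a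
    simp only [Perm.mul_apply]
    rw [k3, k1, k4, k2]
  have finq : ∀ (x y : Perm (Fin n)) (q : Fin n), x q = q → x⁻¹ q = q → y q = q → y⁻¹ q = q →
      (x⁻¹ * y⁻¹ * x * y) q = q := by
    intro x y q k1 k2 k3 k4
    simp only [Perm.mul_apply]
    rw [k3, k1, k4, k2]
  have hz := fin _ _ _ _ (key s hs t ht) (keyi s hs t ht) (key s' hs' t' ht') (keyi s' hs' t' ht')
  refine ⟨((g s)⁻¹ * g t)⁻¹ * ((g s')⁻¹ * g t')⁻¹ * ((g s)⁻¹ * g t) * ((g s')⁻¹ * g t'), i, j, l,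
    hij, hil, hjl, ?_, ?_, ?_, ?_⟩
  · exact ((((hB s hs t ht).inv.mul (hB s' hs' t' ht').inv).mul (hB s hs t ht)).mul
      (hB s' hs' t' ht')).mono (by omega)
  · intro q hq
    exact finq _ _ q (keyq s hs t ht q hq) (keyqi s hs t ht q hq) (keyq s' hs' t' ht' q hq)
      (keyqi s' hs' t' ht' q hq)
  · rw [hz, h1]
  · intro a ha1 ha2 ha3
    rw [hz, h2 a ha1 ha2 ha3]

end Pool.Agent.SymDiam.HQ
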