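import Pool.Agent.Lib.MP_7b6720_al.HQ.Defs

set_option autoImplicit false

/-! # Row TRI: two members that meet in one point -/

namespace Pool.Agent.SymDiam.HQ

open Finset

/-- a maximal subset of `U` without members of `F` -/
theorem tri_max {m : ℕ} (c : ℕ) (U : Finset (Fin m)) (F : Finset (Fin m) → Prop) (h0 : ¬ F ∅)
    (h : ∀ C : Finset (Fin m), C.card = c → ∃ X, F X ∧ X ⊆ C) :
    ∃ I ⊆ U, I.card < c ∧ ∀ p ∈ U, p ∉ I → ∃ X, F X ∧ p ∈ X ∧ X ⊆ insert p I := by
  classical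
  let S : Finset (Finset (Fin m)) := U.powerset.filter fun I => ¬ ∃ X, F X ∧ X ⊆ I
  have hS : S.Nonempty := by
    refine ⟨∅, ?_⟩
    simp only [S, mem_filter, mem_powerset, empty_subset, true_and]
    rintro ⟨X, h1, h2⟩
    rw [subset_empty] at h2
    exact h0 (h2 ▸ h1)
  obtain ⟨I, hI, hmax⟩ := S.exists_max_image card hS
  simp only [S, mem_filter, mem_powerset] at hI
  obtain ⟨hIU, hIF⟩ := hI
  refine ⟨I, hIU, ?_, ?_⟩
  · by_contra hc
    obtain ⟨C, hC1, hC2⟩ := exists_subset_card_eq (not_lt.1 hc)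
    obtain ⟨X, h1, h2⟩ := h C hC2
    exact hIF ⟨X, h1, h2.trans hC1⟩
  · intro p hp hpI
    by_contra hcon
    have hmem : insert p I ∈ S := by
      simp only [S, mem_filter, mem_powerset]
      refine ⟨insert_subset hp hIU, ?_⟩
      rintro ⟨X, h1, h3⟩
      by_cases hpX : p ∈ X
      · exact hcon ⟨X, h1, hpX, h3⟩
      · refine hIF ⟨X, h1, fun x hx => ?_⟩
        rcases mem_insert.1 (h3 hx) with h4 | h4
        · exact absurd (h4 ▸ hx) hpX
        · exact h4
    have := hmax _ hmem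
    rw [card_insert_of_notMem hpI] at this
    omega

theorem tri_proof : TriStatement := by
  intro m c F h0 hc1 hc h
  obtain ⟨I, hIW, hIc, hI⟩ := tri_max c univ F h0 h
  obtain ⟨I', hIW', hIc', hI'⟩ := tri_max c (univ \ I) F h0 h
  obtain ⟨p, hpn⟩ : ∃ p, p ∉ I ∪ I' := by
    by_contra hcon
    push Not at hcon
    have h1 : (univ : Finset (Fin m)).card ≤ (I ∪ I').card := card_le_card fun p _ => hcon p
    have h2 := card_union_le I I'
    rw [card_univ, Fintype.card_fin] at h1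
    omega
  rw [mem_union, not_or] at hpn
  obtain ⟨X, h1, h2, h3⟩ := hI p (mem_univ _) hpn.1
  obtain ⟨X', h1', h2', h3'⟩ := hI' p (mem_sdiff.2 ⟨mem_univ _, hpn.1⟩) hpn.2
  refine ⟨X, X', p, h1, h1', ?_⟩
  ext q
  rw [mem_inter, mem_singleton]
  constructor
  · rintro ⟨hq, hq'⟩
    rcases mem_insert.1 (h3 hq) with h4 | h4
    · exact h4
    · rcases mem_insert.1 (h3' hq') with h5 | h5
      · exact h5
      · exact absurd h4 (mem_sdiff.1 (hIW' h5)).2
  · rintro rfl
    exact ⟨h2, h2'⟩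

end Pool.Agent.SymDiam.HQ
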