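import Pool.Agent.Lib.MP_7b6720_al.HQ.Defs

set_option autoImplicit false

/-!
# Row UPC: non-related sets are closed upwards, double counting
-/

namespace Pool.Agent.SymDiam.HQ

open Equiv Finset Pool.Agent.SymDiam.EX Pool.Agent.SymDiam.HS

theorem upc_proof : UpcStatement := by
  classical
  intro n j m ρ A q q' hq hjm hmn
  unfold cn
  set F : Finset (Finset (Fin n)) := (powersetCard j (univ : Finset (Fin n))).filter fun T =>
    (∅ : Finset (Fin n)) ⊆ T ∧ q ∉ T ∧ q' ∉ T ∧ ¬ Rel A ρ T q q' with hF
  set G : Finset (Finset (Fin n)) := (powersetCard m (univ : Finset (Fin n))).filter fun T =>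
    (∅ : Finset (Fin n)) ⊆ T ∧ q ∉ T ∧ q' ∉ T ∧ ¬ Rel A ρ T q q' with hG
  have key : F.card * (n - 2 - j).choose (m - j) ≤ G.card * m.choose j := by
    refine Finset.card_mul_le_card_mul (fun T T' => T ⊆ T') ?_ ?_
    · intro T hT
      rw [hF, mem_filter, mem_powersetCard] at hT
      obtain ⟨⟨-, hTj⟩, -, hTq, hTq', hrel⟩ := hT
      set E : Finset (Fin n) := (((univ : Finset (Fin n)).erase q).erase q') \ T with hE
      have hEc : E.card = n - 2 - j := by
        rw [hE, card_sdiff_of_subset, card_erase_of_mem, card_erase_of_mem, hTj, card_univ,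
          Fintype.card_fin]
        · omega
        · exact mem_univ _
        · exact mem_erase.2 ⟨hq.symm, mem_univ _⟩
        · intro x hx
          refine mem_erase.2 ⟨fun h => hTq' (h ▸ hx), mem_erase.2 ⟨fun h => hTq (h ▸ hx), mem_univ _⟩⟩
      rw [← hEc, ← card_powersetCard]
      refine card_le_card_of_injOn (fun S => T ∪ S) ?_ ?_
      · intro S hS
        rw [mem_coe, mem_powersetCard] at hS
        obtain ⟨hSE, hSc⟩ := hS
        have hd : Disjoint T S := by
          rw [disjoint_left]
          intro x hx hx'
          exact (mem_sdiff.1 (hSE hx')).2 hx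
        rw [mem_coe, bipartiteAbove, mem_filter, hG, mem_filter, mem_powersetCard]
        refine ⟨⟨⟨subset_univ _, ?_⟩, empty_subset _, ?_, ?_, ?_⟩, subset_union_left⟩
        · rw [card_union_of_disjoint hd, hTj, hSc]; omega
        · intro h
          rcases mem_union.1 h with h | h
          · exact hTq h
          · exact (mem_erase.1 (mem_erase.1 (mem_sdiff.1 (hSE h)).1).2).1 rfl
        · intro h
          rcases mem_union.1 h with h | h
          · exact hTq' h
          · exact (mem_erase.1 (mem_sdiff.1 (hSE h)).1).1 rfl
        · exact fun h => hrel (h.mono le_rfl subset_union_left)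
      · intro S hS S' hS' hSS
        rw [mem_coe, mem_powersetCard] at hS hS'
        have h1 : ∀ S : Finset (Fin n), S ⊆ E → (T ∪ S) \ T = S := by
          intro S hS
          ext x
          simp only [mem_sdiff, mem_union]
          constructor
          · rintro ⟨h | h, h'⟩
            · exact absurd h h'
            · exact h
          · intro h
            exact ⟨Or.inr h, (mem_sdiff.1 (hS h)).2⟩
        have h2 : (T ∪ S) \ T = (T ∪ S') \ T := by
          simp only at hSS
          rw [hSS]
        rw [h1 S hS.1, h1 S' hS'.1] at h2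
        exact h2
    · intro T' hT'
      rw [hG, mem_filter, mem_powersetCard] at hT'
      obtain ⟨⟨-, hTm⟩, -⟩ := hT'
      rw [← hTm, ← card_powersetCard]
      refine card_le_card ?_
      intro T hT
      rw [bipartiteBelow, mem_filter, hF, mem_filter, mem_powersetCard] at hT
      rw [mem_powersetCard]
      exact ⟨hT.2, hT.1.1.2⟩
  have hch : (n - 2).choose m * m.choose j = (n - 2).choose j * (n - 2 - j).choose (m - j) :=
    Nat.choose_mul hjm
  have hpos : 0 < m.choose j := Nat.choose_pos hjm
  refine Nat.le_of_mul_le_mul_right ?_ hpos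
  calc F.card * (n - 2).choose m * m.choose j
      = F.card * ((n - 2).choose m * m.choose j) := by ring
    _ = (F.card * (n - 2 - j).choose (m - j)) * (n - 2).choose j := by rw [hch]; ring
    _ ≤ (G.card * m.choose j) * (n - 2).choose j := Nat.mul_le_mul_right _ key
    _ = G.card * (n - 2).choose j * m.choose j := by ring

end Pool.Agent.SymDiam.HQ
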