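import Pool.Agent.Lib.MP_7b6720_al.HS.Sch
import Pool.Agent.Lib.MP_7b6720_al.HS.Suc
import Pool.Agent.Lib.MP_7b6720_al.HS.Spa
import Pool.Agent.Lib.MP_7b6720_al.HS.Spb
import Pool.Agent.Lib.MP_7b6720_al.HS.Spc
import Pool.Agent.Lib.MP_7b6720_al.HS.Spp
import Pool.Agent.Lib.MP_7b6720_al.HQ.Sd3
import Pool.Agent.Lib.MP_7b6720_al.HQ.Se3
import Pool.Agent.Lib.MP_7b6720_al.HQ.St3
import Pool.Agent.Lib.MP_7b6720_al.HQ.Upc
import Pool.Agent.Lib.MP_7b6720_al.HQ.God
import Pool.Agent.Lib.MP_7b6720_al.HQ.Plc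
import Pool.Agent.Lib.MP_7b6720_al.HQ.Ord
import Pool.Agent.Lib.MP_7b6720_al.HQ.Tri
import Pool.Agent.Lib.MP_7b6720_al.HQ.Com
import Pool.Agent.Lib.MP_7b6720_al.HQ.Sup
import Pool.Agent.Lib.MP_7b6720_al.HQ.Ric
import Pool.Agent.Lib.MP_7b6720_al.HQ.Pai
import Pool.Agent.Lib.MP_7b6720_al.HQ.Sp3
import Pool.Agent.Lib.MP_7b6720_al.HQ.Nb3
import Pool.Agent.Lib.MP_7b6720_al.HQ.It3
import Pool.Agent.Lib.MP_7b6720_al.HQ.En3
import Pool.Agent.Lib.MP_7b6720_al.HQ.Fn3

set_option autoImplicit false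

/-!
# The main theorem, all rows together
-/

namespace Pool.Agent.SymDiam.HQ

open Equiv Finset Pool.Agent.SymDiam.EX Pool.Agent.SymDiam.HS

theorem se3_all : Se3Statement :=
  se3_proof spa_proof (spc_proof spa_proof spb_proof) (spp_proof spb_proof) sd3_proof

theorem god_all : GodStatement := god_proof upc_proof

theorem sup_all : SupStatement := sup_proof tri_proof com_proof

theorem ric_all : RicStatement := ric_proof god_all ord_proof plc_proof sup_all

theorem sp3_all : Sp3Statement := sp3_proof st3_proof se3_all ric_all pai_proof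

theorem it3_all : It3Statement := it3_proof (suc_proof sch_proof) nb3_proof upc_proof sp3_all

theorem en3_all : En3Statement := en3_proof god_all plc_proof

theorem main_all3 : ∃ C : ℝ, ∀ (n : ℕ) (A : Set (Perm (Fin n))),
    alternatingGroup (Fin n) ≤ Subgroup.closure A → ∀ g ∈ Subgroup.closure A,
      ∃ r : ℕ, (r : ℝ) ≤ Real.exp (C * Real.log n ^ 2) ∧ InBall A r g :=
  main_real3 (fn3_proof it3_all en3_all)

end Pool.Agent.SymDiam.HQ
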