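import Pool.Agent.Lib.MP_7b6720_al.HS.Defs

set_option autoImplicit false

/-!
# The diameter of Cayley graphs of the symmetric groups: `diam ≤ exp (C (log n) ^ 2)`

Definitions and statements of the rows.  Authors of the proof: helper48 (the three-cycle trick, TRI,
COM, SUP) and helper76 (the rest).

Idea.  `Rel A ρ T q q'`: one short element fixes `T` pointwise and maps `q` to `q'`.  `NT A m ρ`: for
all pairs `q ≠ q'` few sets `T` of size `m` have `¬ Rel`.  From `NT A m ρ`: most `m`-tuples are good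
(GOD), good tuples are connected by `Ball(2 m ρ)` (PLC), so the three-cycle trick (SUP) gives for many
sets `P` of size `k = m + w - 3` a short element that fixes `P` and moves a point, and some pair has
many such `P` (RIC, PAI).  Exact `s + 2`-transitivity for a small `s = C log n` and the spectral
argument (SE3) give `NT A m' _` for `m' = m + w / 4` (STP3).
-/

namespace Pool.Agent.SymDiam.HQ

open Equiv Finset Pool.Agent.SymDiam.EX Pool.Agent.SymDiam.HS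

/-- an element of the ball of radius `ρ` fixes `T` pointwise and maps `q` to `q'` -/
def Rel {n : ℕ} (A : Set (Perm (Fin n))) (ρ : ℕ) (T : Finset (Fin n)) (q q' : Fin n) : Prop :=
  ∃ z, InBall A ρ z ∧ (∀ p ∈ T, z p = p) ∧ z q = q'

theorem Rel.refl {n : ℕ} (A : Set (Perm (Fin n))) (ρ : ℕ) (T : Finset (Fin n)) (q : Fin n) :
    Rel A ρ T q q :=
  ⟨1, ⟨[], by simp, by simp, by simp⟩, fun _ _ => rfl, rfl⟩

theorem Rel.symm {n : ℕ} {A : Set (Perm (Fin n))} {ρ : ℕ} {T : Finset (Fin n)} {q q' : Fin n}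
    (h : Rel A ρ T q q') : Rel A ρ T q' q := by
  obtain ⟨z, h1, h2, h3⟩ := h
  refine ⟨z⁻¹, h1.inv, fun p hp => ?_, ?_⟩
  · conv_lhs => rw [← h2 p hp]
    exact z.symm_apply_apply p
  · rw [← h3]
    exact z.symm_apply_apply q

theorem Rel.mono {n : ℕ} {A : Set (Perm (Fin n))} {ρ ρ' : ℕ} {T T' : Finset (Fin n)} {q q' : Fin n}
    (h : Rel A ρ T q q') (hρ : ρ ≤ ρ') (hT : T' ⊆ T) : Rel A ρ' T' q q' := by
  obtain ⟨z, h1, h2, h3⟩ := h
  exact ⟨z, h1.mono hρ, fun p hp => h2 p (hT hp), h3⟩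

open Classical in
/-- the number of `m`-sets `T ⊇ S` such that `q, q' ∉ T` are not related -/
noncomputable def cn {n : ℕ} (A : Set (Perm (Fin n))) (ρ m : ℕ) (S : Finset (Fin n))
    (q q' : Fin n) : ℕ :=
  ((powersetCard m (univ : Finset (Fin n))).filter fun T =>
    S ⊆ T ∧ q ∉ T ∧ q' ∉ T ∧ ¬ Rel A ρ T q q').card

theorem cn_mono {n : ℕ} (A : Set (Perm (Fin n))) {ρ ρ' : ℕ} (hρ : ρ ≤ ρ') (m : ℕ)
    (S : Finset (Fin n)) (q q' : Fin n) : cn A ρ' m S q q' ≤ cn A ρ m S q q' := by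
  classical
  unfold cn
  refine card_le_card fun T hT => ?_
  rw [mem_filter] at hT ⊢
  exact ⟨hT.1, hT.2.1, hT.2.2.1, hT.2.2.2.1, fun h => hT.2.2.2.2 (h.mono hρ (Subset.refl _))⟩

/-- nearly total: for every pair `q ≠ q'` few sets `T` of size `m` have `q, q'` not related -/
def NT {n : ℕ} (A : Set (Perm (Fin n))) (m ρ : ℕ) : Prop :=
  ∀ q q' : Fin n, q ≠ q' → 8 * m * cn A ρ m ∅ q q' ≤ (n - 2).choose m

theorem NT.mono {n : ℕ} {A : Set (Perm (Fin n))} {m ρ ρ' : ℕ} (h : NT A m ρ) (hρ : ρ ≤ ρ') :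
    NT A m ρ' := fun q q' hq =>
  (Nat.mul_le_mul_left _ (cn_mono A hρ m ∅ q q')).trans (h q q' hq)

/-! ### Part 1: the spectral argument -/

/-- SD3 (real numbers).  Put `Λ = (s / 2) (N - m + 1)` and let `C a` be the inequality
`a (N - a + 1) V (a - 1) ≤ (a (N - a + 1) - Λ) V a`.  By the third hypothesis and
`a (N - a + 1) = (a - 1) (N - a + 2) + (N - 2 a + 2)`, `C (a - 1)` implies `C a` (if `V (a - 1) = 0`
use `Λ ≤ a (N - a + 1)`).  If `C a` for some `s + 1 ≤ a ≤ m` then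
`V (a - 1) ≤ (1 - s / (2 a)) V a ≤ exp (- s / (2 k)) V a` for `m < a ≤ k`, so
`V m ≤ exp (- s (k - m) / (2 k)) V k ≤ τ β V k`, and `V k ^ 2 ≤ b V m` gives the claim.  Otherwise
`V (a - 1) ≥ (1 - s / (2 a)) V a ≥ (1 - 1 / a) ^ s V a` for `s + 1 ≤ a ≤ m`
(`(1 - x) ^ s ≤ 1 / (1 + s x) ≤ 1 - s x / 2` for `s x ≤ 1`), so `V s ≥ (s / m) ^ s V m`,
`V m ≤ m ^ s V s ≤ τ ^ 2 β b ^ 2`, and `V k ^ 2 ≤ b V m ≤ τ ^ 2 b ^ 4`. -/
def Sd3Statement : Prop := ∀ (N s m k : ℕ) (V : ℕ → ℝ) (η β τ b : ℝ), 1 ≤ s → s < m → m < k →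
  2 * k ≤ N → (∀ a, 0 ≤ V a) → (∀ a, s + 1 ≤ a → a ≤ k → V (a - 1) ≤ V a) →
  (∀ a, s + 2 ≤ a → a ≤ k → (a : ℝ) * ((N : ℝ) - a + 1) * V (a - 1) ^ 2 ≤
    V a * (((a : ℝ) - 1) * ((N : ℝ) - a + 2) * V (a - 2) + ((N : ℝ) - 2 * a + 2) * V (a - 1))) →
  0 < β → β ≤ b → 0 < τ → V k ^ 2 ≤ b * V m → V s ≤ η ^ 2 * b ^ 2 →
  Real.exp (-((s : ℝ) * ((k : ℝ) - m) / (2 * k))) ≤ τ * β →
  η ^ 2 * (m : ℝ) ^ s ≤ τ ^ 2 * β → V k ≤ τ * b ^ 2

/-- SE3 (from SPA, SPC, SPP, SD3), the same proof as `HT/Spe2.lean`. -/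
def Se3Statement : Prop := ∀ (n : ℕ) (E : Finset (Fin n)) (s m k : ℕ)
  (Gs : Finset (Finset (Fin n))) (μ η β τ : ℝ), 1 ≤ s → s < m → m < k → 2 * k ≤ E.card →
  (∀ T ∈ Gs, T ⊆ E ∧ T.card = m) → 0 < β → 0 < τ → 0 ≤ η →
  (∀ S ⊆ E, S.card = s → μ ≤ ((Gs.filter fun T => S ⊆ T).card : ℝ) ∧
    ((Gs.filter fun T => S ⊆ T).card : ℝ) ≤ (1 + η) * μ) →
  β * (((E.card - s).choose (m - s) : ℕ) : ℝ) ≤ μ →
  Real.exp (-((s : ℝ) * ((k : ℝ) - m) / (2 * k))) ≤ τ * β →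
  η ^ 2 * (m : ℝ) ^ s ≤ τ ^ 2 * β →
    (((powersetCard k E).filter fun P => ∀ T ∈ Gs, ¬ T ⊆ P).card : ℝ) ≤
      τ * ((E.card.choose k : ℕ) : ℝ)

/-- ST3 (stable radius), the same proof as `HT/Sta2.lean`, with `Rel` in place of `Reachable`: if
`g ∈ Ball(r)` and `z ∈ Ball(ρ)` fixes `g T` and maps `g q` to `g q'` then `g⁻¹ z g ∈ Ball(ρ + 2 r)` fixes
`T` and maps `q` to `q'`. -/
def St3Statement : Prop := ∀ (n s r m ρ I : ℕ) (A : Set (Perm (Fin n))) (η : ℝ), 0 < η →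
  Tr A (s + 2) r → (2 : ℝ) ^ n < (1 + η) ^ I →
    ∃ j ≤ I, ∀ S S' : Finset (Fin n), S.card = s → S'.card = s →
      ∀ q q', q ∉ S → q' ∉ S → q ≠ q' → ∀ p p', p ∉ S' → p' ∉ S' → p ≠ p' →
        (cn A (ρ + 2 * r * j) m S q q' : ℝ) ≤ (1 + η) * (cn A (ρ + 2 * r * j) m S' p p' : ℝ)

/-! ### Part 2: good tuples -/

/-- UPC: `¬ Rel` is kept when `T` grows.  Double counting of the pairs `T ⊆ T'` of sizes `j`, `m` in
the complement of `{q, q'}`. -/
def UpcStatement : Prop := ∀ (n j m ρ : ℕ) (A : Set (Perm (Fin n))) (q q' : Fin n), q ≠ q' →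
  j ≤ m → m + 2 ≤ n →
    cn A ρ j ∅ q q' * (n - 2).choose m ≤ cn A ρ m ∅ q q' * (n - 2).choose j

/-- the set of the first `i` entries of `e` -/
def pre {n m : ℕ} (e : Fin m ↪ Fin n) (i : ℕ) : Finset (Fin n) :=
  (univ.filter fun j : Fin m => j.val < i).map e

open Classical in
/-- every entry is related, over the set of the previous entries, to more than half of the points
outside this set -/
def Good {n m : ℕ} (A : Set (Perm (Fin n))) (ρ : ℕ) (e : Fin m ↪ Fin n) : Prop :=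
  ∀ i : Fin m, 2 * (univ.filter fun x => x ∉ pre e i ∧ ¬ Rel A ρ (pre e i) (e i) x).card < n - i

open Classical in
/-- GOD (from UPC).  Fix `i < m`.  The number of triples `(T, q, x)`, `|T| = i`, `q ≠ x` outside `T`,
not related, is at most `n (n - 1) choose (n - 2) i / (8 m)` (UPC, NT), so the number of pairs
`(T, q)` with `2 #{x ..} ≥ n - i` is at most `choose n i (n - i) / (4 m)`, and every pair comes from
the same number of tuples.  Sum over `i`. -/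
def GodStatement : Prop := ∀ (n m ρ : ℕ) (A : Set (Perm (Fin n))), 1 ≤ m → m + 2 ≤ n → NT A m ρ →
  4 * (univ.filter fun e : Fin m ↪ Fin n => ¬ Good A ρ e).card ≤ n.descFactorial m

/-- PLC (placement).  Induction on `i`: `g ∈ Ball(2 i ρ)` maps the first `i` entries of `e` to those
of `e'`.  Step: the sets `{z | z ∉ pre e i, Rel (pre e i) (e i) z}` and
`{z | z ∉ pre e i, Rel (pre e' i) (e' i) (g z)}` have more than half of the `n - i` points outside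
`pre e i`, take `z` in both; the new element is `h' * g * h`. -/
def PlcStatement : Prop := ∀ (n m ρ : ℕ) (A : Set (Perm (Fin n))) (e e' : Fin m ↪ Fin n),
  Good A ρ e → Good A ρ e' → ∃ g, InBall A (2 * m * ρ) g ∧ Maps e e' g

open Classical in
/-- ORD (counting): a set of size `m` has `m!` orderings. -/
def OrdStatement : Prop := ∀ (n m : ℕ) (Gd : (Fin m ↪ Fin n) → Prop),
  4 * (univ.filter fun e : Fin m ↪ Fin n => ¬ Gd e).card ≤ n.descFactorial m →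
    n.choose m ≤ 2 * ((powersetCard m (univ : Finset (Fin n))).filter fun S =>
      m.factorial ≤ 2 * (univ.filter fun e : Fin m ↪ Fin n => univ.map e = S ∧ Gd e).card).card

/-! ### Part 3: the three-cycle trick -/

/-- TRI.  Let `I` be a maximal set without a subset in `F` (`|I| < c`), `I'` a maximal subset of the
complement of `I` without a subset in `F` (`|I'| < c`), `p` outside both; `X ⊆ I ∪ {p}`,
`X' ⊆ I' ∪ {p}`. -/
def TriStatement : Prop := ∀ (m c : ℕ) (F : Finset (Fin m) → Prop), ¬ F ∅ → 1 ≤ c →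
  2 * c ≤ m + 1 → (∀ C : Finset (Fin m), C.card = c → ∃ X, F X ∧ X ⊆ C) →
    ∃ (X X' : Finset (Fin m)) (p : Fin m), F X ∧ F X' ∧ X ∩ X' = {p}

/-- COM: `i = p`, `j = σ⁻¹ p`, `l = τ⁻¹ p`. -/
def ComStatement : Prop := ∀ (m : ℕ) (σ τ : Perm (Fin m)) (p : Fin m),
  σ.support ∩ τ.support = {p} → ∃ i j l : Fin m, i ≠ j ∧ i ≠ l ∧ j ≠ l ∧
    (σ⁻¹ * τ⁻¹ * σ * τ) i = j ∧ ∀ a, a ≠ i → a ≠ j → a ≠ l → (σ⁻¹ * τ⁻¹ * σ * τ) a = a

/-- SUP (from TRI, COM).  Let `g s` be the given elements, `D'` a largest fibre of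
`s ↦ g s` restricted to `Q`: `|D| ≤ n ^ w |D'|`, so `m! < |D'| c!`, so for every `C` of size `c`
the products `s * π`, `s ∈ D'`, `π ∈ Sym(C)`, are not distinct, and some `s⁻¹ * s'` (`s ≠ s'` in `D'`)
has support in `C`.  TRI with `F X`: `X` is the support of some `s⁻¹ * s'`.  Then
`z = x⁻¹ * y⁻¹ * x * y`, `x = (g s)⁻¹ * g s'`, `y = (g t)⁻¹ * g t'`. -/
def SupStatement : Prop := ∀ (n m w c R : ℕ) (A : Set (Perm (Fin n))) (e : Fin m ↪ Fin n)
  (D : Finset (Perm (Fin m))) (Q : Finset (Fin n)),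
  (∀ s ∈ D, ∃ g, InBall A R g ∧ ∀ i, g (e i) = e (s i)) → m.factorial ≤ 2 * D.card →
  Q.card = w → (∀ i, e i ∉ Q) → 2 * n ^ w < c.factorial → 2 * c ≤ m + 1 →
    ∃ (z : Perm (Fin n)) (i j l : Fin m), i ≠ j ∧ i ≠ l ∧ j ≠ l ∧ InBall A (8 * R) z ∧
      (∀ q ∈ Q, z q = q) ∧ z (e i) = e j ∧ ∀ a, a ≠ i → a ≠ j → a ≠ l → z (e a) = e a

/-- `Ψ` is a set `P` of size `k` and three more points `q, q', l` such that `q, q'` are related over
`P` -/
def Rich {n : ℕ} (A : Set (Perm (Fin n))) (R k : ℕ) (Ψ : Finset (Fin n)) : Prop :=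
  ∃ (P : Finset (Fin n)) (q q' l : Fin n), P.card = k ∧ q ∉ P ∧ q' ∉ P ∧ l ∉ P ∧ q ≠ q' ∧ q ≠ l ∧
    q' ≠ l ∧ Ψ = insert q (insert q' (insert l P)) ∧ Rel A R P q q'

open Classical in
/-- RIC (from GOD, ORD, PLC, SUP).  A set `Ψ` of size `k + 3` that contains a set `Σ` as in ORD (with
`Gd = Good A ρ`) is rich: let `e` be a good ordering of `Σ`, `D` the set of the `s` with `e ∘ s` good,
`Q = Ψ \ Σ`, `R = 2 m ρ`; the three points are `e i, e j, e l`.  Count the pairs `Σ ⊆ Ψ`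
(`Nat.choose_mul`). -/
def RicStatement : Prop := ∀ (n m w c ρ k : ℕ) (A : Set (Perm (Fin n))), 1 ≤ m → m + 2 ≤ n →
  NT A m ρ → 2 * n ^ w < c.factorial → 2 * c ≤ m + 1 → k + 3 = m + w → m + w ≤ n →
    n.choose (k + 3) ≤ 2 * ((powersetCard (k + 3) (univ : Finset (Fin n))).filter fun Ψ =>
      Rich A (16 * m * ρ) k Ψ).card

open Classical in
/-- PAI.  Every rich `Ψ` gives `(P, q, q', l)`, so the number of rich sets is at most `n` times the
number of `(P, q, q')`, `q ≠ q'`, `Rel`.  If the claim fails for all pairs then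
`5 (k + 3) ^ 3 choose n (k + 3) ≤ 2 n (n (n - 1) choose (n - 2) k)`, but
`choose n (k + 3) (k + 3) (k + 2) (k + 1) = n (n - 1) (n - k - 2) choose (n - 2) k`. -/
def PaiStatement : Prop := ∀ (n k R : ℕ) (A : Set (Perm (Fin n))), 4 * k + 8 ≤ n →
  n.choose (k + 3) ≤ 2 * ((powersetCard (k + 3) (univ : Finset (Fin n))).filter fun Ψ =>
    Rich A R k Ψ).card →
    ∃ q q' : Fin n, q ≠ q' ∧ (n - 2).choose k < 5 * (k + 3) ^ 3 *
      ((powersetCard k (univ : Finset (Fin n))).filter fun P =>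
        q ∉ P ∧ q' ∉ P ∧ Rel A R P q q').card

/-! ### Part 4: the growth -/

/-- SP3 (from ST3, SE3, RIC, PAI).  `R = 16 m ρ`, `H = n ^ 5 * m' ^ s`, `η = 1 / H`, `I = H (n + 1)`
(`(1 + η) ^ I ≥ 2 ^ (n + 1)`), ST3 gives `ρ' = R + 2 r j`.  Let `μ` be the minimum of all
`cn A ρ' m' S q q'`, `|S| = s`, so `μ ≤ cn ≤ (1 + η) μ ≤ 2 μ`; `N = n - 2`, `β = 1 / (16 m')`,
`τ = 1 / (5 (k + 3) ^ 3)`.  If `β choose (N - s) (m' - s) ≤ μ`: SE3 for the pair of PAI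
(`E` = complement of `{q, q'}`, `Gs` the sets `T ⊆ E` of size `m'` with `¬ Rel A ρ' T q q'`); the sets
counted in PAI contain no `T ∈ Gs`, a contradiction.  Otherwise, for all pairs,
`cn ∅ choose m' s = ∑ cn S ≤ choose N s (2 μ)` and
`choose N s choose (N - s) (m' - s) = choose N m' choose m' s`. -/
def Sp3Statement : Prop := ∀ (n s m m' w c k ρ r : ℕ) (A : Set (Perm (Fin n))), 1 ≤ s →
  Tr A (s + 2) r → 1 ≤ m → s < m' → m' < k → k + 3 = m + w → 4 * k + 8 ≤ n →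
  2 * n ^ w < c.factorial → 2 * c ≤ m + 1 →
  80 * ((k : ℝ) + 3) ^ 3 * m' * Real.exp (-((s : ℝ) * ((k : ℝ) - m') / (2 * k))) ≤ 1 →
  NT A m ρ → NT A m' (16 * m * ρ + 2 * r * (n ^ 5 * m' ^ s * (n + 1)))

/-- NB3 (base): `cn = 0`. -/
def Nb3Statement : Prop := ∀ (n s r : ℕ) (A : Set (Perm (Fin n))), Tr A (s + 1) r → NT A s r

/-- IT3 (from SUC, NB3, UPC, SP3).  `λ = Nat.log 2 n`, `s = 2 ^ j0` between `K1 λ` and `2 K1 λ`,
`q = K2 λ`.  For `2 ^ j ≤ m < 2 ^ (j + 1)` a step with `u = 2 ^ j j / q`, `w = 4 u`, `m' = m + u`. -/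
def It3Statement : Prop := ∃ K n0 : ℕ, ∀ n ≥ n0, ∀ A : Set (Perm (Fin n)),
  alternatingGroup (Fin n) ≤ Subgroup.closure A →
    ∃ m ρ : ℕ, 1 ≤ ρ ∧ ρ ≤ n ^ (K * Nat.log 2 n) ∧ n ≤ 32 * m ∧ 16 * m ≤ n ∧ NT A m ρ

/-- EN3 (from GOD, PLC, `EX.expo`).  Fix a good tuple `e`; the elements of `Ball(2 m ρ)` that map `e`
to the good tuples are distinct, so the ball has at least
`(3 / 4) descFactorial n m ≥ 2 ^ (200 n)` elements (`n - m ≥ 2 ^ (λ - 1)`, compare `HT/Fin2.lean`,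
`ball`, `mem_ball` there). -/
def En3Statement : Prop := ∀ (n m ρ : ℕ) (A : Set (Perm (Fin n))), 10000 ≤ Nat.log 2 n → 1 ≤ ρ →
  n ≤ 32 * m → 16 * m ≤ n → alternatingGroup (Fin n) ≤ Subgroup.closure A → NT A m ρ →
    ∀ g ∈ Subgroup.closure A, InBall A (2 * m * ρ * n ^ 26) g

/-- the main statement in natural numbers -/
def Main3Statement : Prop := ∃ K n0 : ℕ, ∀ n ≥ n0, ∀ A : Set (Perm (Fin n)),
  alternatingGroup (Fin n) ≤ Subgroup.closure A → ∀ g ∈ Subgroup.closure A,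
    InBall A (n ^ (K * Nat.log 2 n)) g

end Pool.Agent.SymDiam.HQ
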