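import Pool.Agent.Lib.MP_7b6720_al.HQ.Defs

set_option autoImplicit false

/-!
# The diameter of Cayley graphs of the symmetric groups: row PLC
-/

namespace Pool.Agent.SymDiam.HQ

open Equiv Finset Pool.Agent.SymDiam.EX Pool.Agent.SymDiam.HS

theorem mem_pre {n m : ℕ} {e : Fin m ↪ Fin n} {i : ℕ} {x : Fin n} :
    x ∈ pre e i ↔ ∃ j : Fin m, j.val < i ∧ e j = x := by
  simp [pre]

theorem card_pre {n m : ℕ} (e : Fin m ↪ Fin n) {i : ℕ} (hi : i ≤ m) : (pre e i).card = i := by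
  rw [pre, card_map, Fin.card_filter_val_lt]
  omega

theorem plc_step {n m ρ : ℕ} {A : Set (Perm (Fin n))} {e e' : Fin m ↪ Fin n}
    (h1 : Good A ρ e) (h2 : Good A ρ e') (i : ℕ) (hi : i < m) {R : ℕ} {g : Perm (Fin n)}
    (hg : InBall A R g) (hm : ∀ j : Fin m, j.val < i → g (e j) = e' j) :
    ∃ g', InBall A (R + 2 * ρ) g' ∧ ∀ j : Fin m, j.val < i + 1 → g' (e j) = e' j := by
  classical
  have a1 := h1 ⟨i, hi⟩
  have a2 := h2 ⟨i, hi⟩
  simp only at a1 a2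
  set E : Finset (Fin n) := univ.filter fun x => x ∉ pre e i with hE
  have hEc : E.card = n - i := by
    have h3 : E = (pre e i)ᶜ := by
      ext x
      simp [hE]
    rw [h3, card_compl, Fintype.card_fin, card_pre e hi.le]
  set B1 : Finset (Fin n) := univ.filter fun x => x ∉ pre e i ∧ ¬ Rel A ρ (pre e i) (e ⟨i, hi⟩) x
    with hB1
  set B2 : Finset (Fin n) := univ.filter fun x => x ∉ pre e' i ∧
    ¬ Rel A ρ (pre e' i) (e' ⟨i, hi⟩) x with hB2
  have hc1 : 2 * B1.card < n - i := by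
    rw [hB1]
    refine lt_of_le_of_lt (le_of_eq ?_) a1
    congr 2
  have hc2 : 2 * B2.card < n - i := by
    rw [hB2]
    refine lt_of_le_of_lt (le_of_eq ?_) a2
    congr 2
  have hc3 : (B2.image (g⁻¹ : Perm (Fin n))).card = B2.card :=
    card_image_of_injective _ (g⁻¹).injective
  have hex : ∃ z ∈ E, z ∉ B1 ∪ B2.image (g⁻¹ : Perm (Fin n)) := by
    by_contra hcon
    push Not at hcon
    have h3 : E ⊆ B1 ∪ B2.image (g⁻¹ : Perm (Fin n)) := hcon
    have h4 := card_le_card h3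
    have h5 := card_union_le B1 (B2.image (g⁻¹ : Perm (Fin n)))
    omega
  obtain ⟨z, hzE, hz⟩ := hex
  have hz1 : z ∉ pre e i := (mem_filter.1 hzE).2
  have hz2 : Rel A ρ (pre e i) (e ⟨i, hi⟩) z := by
    by_contra h3
    exact hz (mem_union_left _ (mem_filter.2 ⟨mem_univ _, hz1, h3⟩))
  have hgz : g z ∉ pre e' i := by
    intro h3
    obtain ⟨j, hj, hj'⟩ := mem_pre.1 h3
    rw [← hm j hj] at hj'
    exact hz1 (mem_pre.2 ⟨j, hj, g.injective hj'⟩)
  have hz3 : Rel A ρ (pre e' i) (e' ⟨i, hi⟩) (g z) := by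
    by_contra h3
    refine hz (mem_union_right _ (mem_image.2 ⟨g z, mem_filter.2 ⟨mem_univ _, hgz, h3⟩, ?_⟩))
    simp
  obtain ⟨h, c1, c2, c3⟩ := hz2
  obtain ⟨h', d1, d2, d3⟩ := hz3
  refine ⟨h'⁻¹ * g * h, ((d1.inv.mul hg).mul c1).mono (by omega), ?_⟩
  intro j hj
  rcases Nat.lt_succ_iff_lt_or_eq.1 hj with hj | hj
  · have e1 : h (e j) = e j := c2 _ (mem_pre.2 ⟨j, hj, rfl⟩)
    have e2 : h' (e' j) = e' j := d2 _ (mem_pre.2 ⟨j, hj, rfl⟩)
    rw [Perm.mul_apply, Perm.mul_apply, e1, hm j hj, Perm.inv_eq_iff_eq, e2]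
  · have e0 : j = ⟨i, hi⟩ := Fin.ext hj
    subst e0
    rw [Perm.mul_apply, Perm.mul_apply, c3, Perm.inv_eq_iff_eq, d3]

theorem plc_proof : PlcStatement := by
  intro n m ρ A e e' h1 h2
  have key : ∀ i, i ≤ m → ∃ g, InBall A (2 * i * ρ) g ∧
      ∀ j : Fin m, j.val < i → g (e j) = e' j := by
    intro i
    induction i with
    | zero =>
      intro _
      exact ⟨1, ⟨[], by simp, by simp, by simp⟩, fun j hj => absurd hj (Nat.not_lt_zero _)⟩
    | succ i ih =>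
      intro hi
      obtain ⟨g, hg, hm⟩ := ih (by omega)
      obtain ⟨g', hg', hm'⟩ := plc_step h1 h2 i (by omega) hg hm
      refine ⟨g', hg'.mono (le_of_eq ?_), hm'⟩
      ring
  obtain ⟨g, hg, hm⟩ := key m le_rfl
  exact ⟨g, hg, fun j => hm j j.isLt⟩

end Pool.Agent.SymDiam.HQ
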